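import Pool.Agent.Helper35.NH.ORDER
import Pool.Agent.Helper80.NH.Stm
open MeasureTheory Metric Set Filter Topology Real
open scoped ENNReal NNReal

/-!
The combined theorem for one gap between two neighbouring clusters.
-/

namespace H11ST
namespace NH

/-- loss of the arc at an arm which ends at the distance `r` before its straight exit -/
noncomputable def Uf (al r : ℝ) : ℝ :=
  π / 3 - al - Real.arcsin (Real.sin (π / 3 - al) - √3 / 2 * r)

theorem sqrt3_pos : (0 : ℝ) < √3 := by positivity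

theorem sqrt3_sq : (√3 : ℝ) ^ 2 = 3 := Real.sq_sqrt (by norm_num)

theorem Uf_aux {al r : ℝ} (ha : |al| ≤ π / 6) (hr0 : 0 ≤ r) (hr : r ≤ Real.cos al) :
    0 ≤ Uf al r ∧ r = 4 / √3 * (Real.sin (Uf al r / 2) * Real.cos (π / 3 - al - Uf al r / 2)) ∧
      -(π / 2) ≤ π / 3 - al - Uf al r := by
  have hpi := Real.pi_pos
  obtain ⟨ha1, ha2⟩ := abs_le.1 ha
  have hs := sqrt3_pos
  have hs2 := sqrt3_sq
  set x := Real.sin (π / 3 - al) - √3 / 2 * r with hx
  have hx1 : x ≤ Real.sin (π / 3 - al) := by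
    have : 0 ≤ √3 / 2 * r := by positivity
    linarith
  have hx1' : x ≤ 1 := hx1.trans (Real.sin_le_one _)
  have hx0 : -1 ≤ x := by
    have h1 : √3 / 2 * r ≤ √3 / 2 * Real.cos al := by
      apply mul_le_mul_of_nonneg_left hr (by positivity)
    have h2 : Real.sin (π / 3 - al) = √3 / 2 * Real.cos al - 1 / 2 * Real.sin al := by
      rw [Real.sin_sub, Real.sin_pi_div_three, Real.cos_pi_div_three]
    have h3 := Real.sin_le_one al
    rw [hx, h2]
    linarith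
  have hw := Real.sin_arcsin hx0 hx1'
  have hU : Uf al r = π / 3 - al - Real.arcsin x := rfl
  have h5 : π / 3 - al - Uf al r = Real.arcsin x := by rw [hU]; ring
  refine ⟨?_, ?_, ?_⟩
  · have : Real.arcsin x ≤ π / 3 - al := by
      have h := Real.monotone_arcsin hx1
      rwa [Real.arcsin_sin (by linarith) (by linarith)] at h
    rw [hU]; linarith
  · have h6 : Real.sin (π / 3 - al) - Real.sin (Real.arcsin x) =
        2 * Real.sin (Uf al r / 2) * Real.cos (π / 3 - al - Uf al r / 2) := by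
      have e1 : (π / 3 - al - Real.arcsin x) / 2 = Uf al r / 2 := by rw [hU]
      have e2 : (π / 3 - al + Real.arcsin x) / 2 = π / 3 - al - Uf al r / 2 := by rw [hU]; ring
      rw [Real.sin_sub_sin, e1, e2]
    rw [hw] at h6
    have h7 : √3 / 2 * r = 2 * Real.sin (Uf al r / 2) * Real.cos (π / 3 - al - Uf al r / 2) := by
      rw [← h6, hx]; ring
    have h8 : 4 / √3 * (√3 / 2 * r) = 2 * r := by field_simp; ring
    rw [h7] at h8
    linear_combination (-1 / 2 : ℝ) * h8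
  · rw [h5]
    exact Real.neg_pi_div_two_le_arcsin x

/-- the arm data exist -/
theorem arm_Uf {al r : ℝ} (ha : |al| ≤ π / 6) (hr0 : 0 ≤ r) (hr : r ≤ Real.cos al) :
    Arm al r (Uf al r) (Uf (-al) r) := by
  obtain ⟨h1, h2, h3⟩ := Uf_aux ha hr0 hr
  obtain ⟨g1, g2, g3⟩ := Uf_aux (al := -al) (by rwa [abs_neg]) hr0 (by rwa [Real.cos_neg])
  rw [sub_neg_eq_add] at g2 g3
  exact ⟨hr0, h1, g1, h2, g2, h3, g3⟩

theorem Arm.sin_w {al r Up Um : ℝ} (h : Arm al r Up Um) :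
    Real.sin (π / 3 - al - Up) = Real.sin (π / 3 - al) - √3 / 2 * r := by
  have h1 := h.up
  have hs := sqrt3_pos
  have h2 : √3 / 2 * r = 2 * Real.sin (Up / 2) * Real.cos (π / 3 - al - Up / 2) := by
    rw [h1]; field_simp; ring
  have h3 : Real.sin (π / 3 - al) - Real.sin (π / 3 - al - Up) =
      2 * Real.sin (Up / 2) * Real.cos (π / 3 - al - Up / 2) := by
    rw [Real.sin_sub_sin]
    congr 2 <;> ring_nf
  linarith

theorem Arm.sin_w' {al r Up Um : ℝ} (h : Arm al r Up Um) :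
    Real.sin (π / 3 + al - Um) = Real.sin (π / 3 + al) - √3 / 2 * r := by
  have := h.mirror.sin_w
  rwa [sub_neg_eq_add] at this

theorem Arm.zero_up {al r Up Um : ℝ} (ha : |al| ≤ π / 6) (h : Arm al r Up Um) (hr : r = 0) :
    Up = 0 := by
  have hpi := Real.pi_pos
  obtain ⟨ha1, ha2⟩ := abs_le.1 ha
  have h1 := h.sin_w
  rw [hr, mul_zero, sub_zero] at h1
  have h2 := Real.injOn_sin (show π / 3 - al - Up ∈ Icc (-(π / 2)) (π / 2) from
    ⟨h.wp, by have := h.up0; linarith⟩) (show π / 3 - al ∈ Icc (-(π / 2)) (π / 2) from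
    ⟨by linarith, by linarith⟩) h1
  linarith

theorem Arm.zero_um {al r Up Um : ℝ} (ha : |al| ≤ π / 6) (h : Arm al r Up Um) (hr : r = 0) :
    Um = 0 :=
  h.mirror.zero_up (by rwa [abs_neg]) hr

/-- a cluster: the straight exit is `pt (δ + α)`, the arm has the direction `δ` and ends at the
tripod `pt (δ + α) - r • pt δ`; `K` contains the tripod's two zigzag paths with the exits `p` (left)
and `q` (right). An arm without a tripod has `r = 0` and `p = q = pt (δ + α)`. -/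
structure Clu (K : Set (E 2)) (δ α r : ℝ) (p q : E 2) : Prop where
  al : |α| ≤ π / 6
  r0 : 0 ≤ r
  rc : r ≤ Real.cos α
  pn : ‖p‖ = 1
  qn : ‖q‖ = 1
  pK : p ∈ K
  qK : q ∈ K
  z : r = 0 → p = pt (δ + α) ∧ q = pt (δ + α)
  pc : 0 < r → ∃ a b : ℝ, 0 ≤ a ∧ 0 ≤ b ∧
    p = pt (δ + α) - r • pt δ + a • pt (δ + π / 3) + b • pt (δ + 2 * π / 3)
  qc : 0 < r → ∃ a b : ℝ, 0 ≤ a ∧ 0 ≤ b ∧
    q = pt (δ + α) - r • pt δ + a • pt (δ - π / 3) + b • pt (δ - 2 * π / 3)
  bk : 0 < r → ∀ s : ℝ, 0 < s → pt (δ + α) - (r + s) • pt δ ∉ K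
  conn : IsPreconnected K
  comp : IsCompact K
  ball : K ⊆ closedBall 0 1

/-- the rest `Z` of the tree seen from the cluster `K`, containing the set `K'` -/
structure Rest (K Z K' : Set (E 2)) (δ α r : ℝ) : Prop where
  conn : IsPreconnected Z
  comp : IsCompact Z
  ball : Z ⊆ closedBall 0 1
  disj : Disjoint K Z
  sub : K' ⊆ Z
  arm : ∃ ε : ℝ, 0 < ε ∧ pt (δ + α) - (r + ε) • pt δ ∈ Z

theorem pt_add_two_pi (φ : ℝ) : pt (φ + 2 * π) = pt φ := by
  ext i
  fin_cases i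
  · exact Real.cos_add_two_pi φ
  · exact Real.sin_add_two_pi φ

theorem Clu.shift {K : Set (E 2)} {δ α r : ℝ} {p q : E 2} (h : Clu K δ α r p q) :
    Clu K (δ + 2 * π) α r p q := by
  have e0 : pt (δ + 2 * π + α) = pt (δ + α) := by
    rw [show δ + 2 * π + α = δ + α + 2 * π by ring, pt_add_two_pi]
  have e1 : pt (δ + 2 * π + π / 3) = pt (δ + π / 3) := by
    rw [show δ + 2 * π + π / 3 = δ + π / 3 + 2 * π by ring, pt_add_two_pi]
  have e2 : pt (δ + 2 * π + 2 * π / 3) = pt (δ + 2 * π / 3) := by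
    rw [show δ + 2 * π + 2 * π / 3 = δ + 2 * π / 3 + 2 * π by ring, pt_add_two_pi]
  have e3 : pt (δ + 2 * π - π / 3) = pt (δ - π / 3) := by
    rw [show δ + 2 * π - π / 3 = δ - π / 3 + 2 * π by ring, pt_add_two_pi]
  have e4 : pt (δ + 2 * π - 2 * π / 3) = pt (δ - 2 * π / 3) := by
    rw [show δ + 2 * π - 2 * π / 3 = δ - 2 * π / 3 + 2 * π by ring, pt_add_two_pi]
  have e5 : pt (δ + 2 * π) = pt δ := pt_add_two_pi δ
  refine ⟨h.al, h.r0, h.rc, h.pn, h.qn, h.pK, h.qK, ?_, ?_, ?_, ?_, h.conn, h.comp, h.ball⟩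
  · rw [e0]; exact h.z
  · rw [e0, e1, e2, e5]; exact h.pc
  · rw [e0, e3, e4, e5]; exact h.qc
  · rw [e0, e5]; exact h.bk

theorem Rest.shift {K Z K' : Set (E 2)} {δ α r : ℝ} (h : Rest K Z K' δ α r) :
    Rest K Z K' (δ + 2 * π) α r := by
  have e0 : pt (δ + 2 * π + α) = pt (δ + α) := by
    rw [show δ + 2 * π + α = δ + α + 2 * π by ring, pt_add_two_pi]
  refine ⟨h.conn, h.comp, h.ball, h.disj, h.sub, ?_⟩
  rw [e0, pt_add_two_pi]
  exact h.arm

theorem v_lt {δ α r : ℝ} (hc : 0 < Real.cos α) (hr0 : 0 < r) (hr : r ≤ Real.cos α) :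
    ‖pt (δ + α) - r • pt δ‖ < 1 := by
  have h := nsq (pt (δ + α) - r • pt δ)
  have e0 : (pt (δ + α) - r • pt δ) 0 = Real.cos (δ + α) - r * Real.cos δ := rfl
  have e1 : (pt (δ + α) - r • pt δ) 1 = Real.sin (δ + α) - r * Real.sin δ := rfl
  have h3 : Real.cos α = Real.cos (δ + α) * Real.cos δ + Real.sin (δ + α) * Real.sin δ := by
    rw [← Real.cos_sub]; congr 1; ring
  have h1 := Real.sin_sq_add_cos_sq (δ + α)
  have h2 := Real.sin_sq_add_cos_sq δ
  have h4 : ‖pt (δ + α) - r • pt δ‖ ^ 2 = 1 - r * (2 * Real.cos α - r) := by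
    rw [h, e0, e1, h3]
    linear_combination h1 + r ^ 2 * h2
  have h5 : 0 < r * (2 * Real.cos α - r) := mul_pos hr0 (by linarith)
  have h6 := norm_nonneg (pt (δ + α) - r • pt δ)
  nlinarith

/-- the positions of the two exits of a cluster -/
theorem Clu.pos {K : Set (E 2)} {δ α r : ℝ} {p q : E 2} (h : Clu K δ α r p q) (hr : 0 < r)
    {Up Um : ℝ} (A : Arm α r Up Um) :
    ∃ u w : ℝ, 0 < u ∧ u < π ∧ u < π - 2 * α ∧ 0 < w ∧ w < π ∧ w < π + 2 * α ∧ Up ≤ u ∧ Um ≤ w ∧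
      p = pt (δ + α + u) ∧ q = pt (δ + α - w) := by
  have hpi := Real.pi_pos
  obtain ⟨ha1, ha2⟩ := abs_le.1 h.al
  have hc : 0 < Real.cos α := lt_of_lt_of_le hr h.rc
  have hv := v_lt (δ := δ) hc hr h.rc
  obtain ⟨a, b, h1, h2, h3⟩ := h.pc hr
  obtain ⟨a', b', h1', h2', h3'⟩ := h.qc hr
  obtain ⟨u, g1, g2, g3, g4, g5⟩ := ang_plus h.al h.rc hv h.pn A.wp
    (by have := A.up0; linarith) A.sin_w h1 h2 h3
  obtain ⟨w, f1, f2, f3, f4, f5⟩ := ang_minus h.al h.rc hv h.qn A.wm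
    (by have := A.um0; linarith) A.sin_w' h1' h2' h3'
  exact ⟨u, w, g1, g2, g3, f1, f2, f3, by linarith, by linarith, g5, f5⟩

/-- **one gap** -/
theorem gap_thm {K1 K2 : Set (E 2)} {δ1 α1 r1 δ2 α2 r2 : ℝ} {p1 q1 p2 q2 : E 2}
    (h1 : Clu K1 δ1 α1 r1 p1 q1) (h2 : Clu K2 δ2 α2 r2 p2 q2)
    {g : ℝ} (hg : g = (δ2 + α2) - (δ1 + α1)) (hg0 : 0 < g) (hg1 : g < π)
    (H1 : 0 < r1 → ∃ Z, Rest K1 Z K2 δ1 α1 r1) (H2 : 0 < r2 → ∃ Z, Rest K2 Z K1 δ2 α2 r2)
    {Up1 Um1 Up2 Um2 : ℝ} (A1 : Arm α1 r1 Up1 Um1) (A2 : Arm α2 r2 Up2 Um2) :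
    Up1 + Um2 ≤ g ∧ dist p1 q2 ≤ ch (g - Up1 - Um2) := by
  have hpi := Real.pi_pos
  -- the chord from the order
  have fin : ∀ u w' : ℝ, 0 ≤ u → 0 ≤ w' → u + w' ≤ g → Up1 ≤ u → Um2 ≤ w' →
      p1 = pt (δ1 + α1 + u) → q2 = pt (δ2 + α2 - w') →
      Up1 + Um2 ≤ g ∧ dist p1 q2 ≤ ch (g - Up1 - Um2) := by
    intro u w' hu hw' huw hU1 hU2 e1 e2
    refine ⟨by linarith, ?_⟩
    have e3 : δ2 + α2 - w' - (δ1 + α1 + u) = g - u - w' := by rw [hg]; ring
    rw [e1, e2, dist_pt (by linarith) (by linarith), e3]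
    have := A1.up0
    have := A2.um0
    exact chord_mono (by linarith) (by linarith) (by linarith)
  rcases h1.r0.lt_or_eq with hr1 | hr1
  · obtain ⟨u, w, g1, g2, g3, g4, g5, g6, g7, g8, g9, g10⟩ := h1.pos hr1 A1
    obtain ⟨Z, hZ⟩ := H1 hr1
    obtain ⟨ε, hε, hZε⟩ := hZ.arm
    have hin := hZ.ball hZε
    have hc1 : 0 < Real.cos α1 := lt_of_lt_of_le hr1 h1.rc
    have hεr : r1 + ε ≤ 2 * Real.cos α1 := by
      by_contra hcon
      push Not at hcon
      rw [mem_closedBall_zero_iff] at hin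
      have h := nsq (pt (δ1 + α1) - (r1 + ε) • pt δ1)
      have e0 : (pt (δ1 + α1) - (r1 + ε) • pt δ1) 0 =
        Real.cos (δ1 + α1) - (r1 + ε) * Real.cos δ1 := rfl
      have e1 : (pt (δ1 + α1) - (r1 + ε) • pt δ1) 1 =
        Real.sin (δ1 + α1) - (r1 + ε) * Real.sin δ1 := rfl
      have h3 : Real.cos α1 = Real.cos (δ1 + α1) * Real.cos δ1 +
          Real.sin (δ1 + α1) * Real.sin δ1 := by
        rw [← Real.cos_sub]; congr 1; ring
      have h1 := Real.sin_sq_add_cos_sq (δ1 + α1)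
      have h2 := Real.sin_sq_add_cos_sq δ1
      have h4 : ‖pt (δ1 + α1) - (r1 + ε) • pt δ1‖ ^ 2 =
          1 + (r1 + ε) * ((r1 + ε) - 2 * Real.cos α1) := by
        rw [h, e0, e1, h3]
        linear_combination h1 + (r1 + ε) ^ 2 * h2
      have h5 : 0 < (r1 + ε) * ((r1 + ε) - 2 * Real.cos α1) :=
        mul_pos (by linarith) (by linarith)
      have h6 := norm_nonneg (pt (δ1 + α1) - (r1 + ε) • pt δ1)
      nlinarith
    have G1 := good h1.conn hZ.conn h1.comp hZ.comp h1.ball hZ.ball hZ.disj h1.al hr1 h1.rc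
      (h1.bk hr1) hε hεr hZε g1 g2 g3 g4 g5 g6 (g9 ▸ h1.pK) (g10 ▸ h1.qK)
    rcases h2.r0.lt_or_eq with hr2 | hr2
    · obtain ⟨u', w', f1, f2, f3, f4, f5, f6, f7, f8, f9, f10⟩ := h2.pos hr2 A2
      obtain ⟨Z', hZ'⟩ := H2 hr2
      obtain ⟨ε', hε', hZε'⟩ := hZ'.arm
      have hin' := hZ'.ball hZε'
      have hc2 : 0 < Real.cos α2 := lt_of_lt_of_le hr2 h2.rc
      have hεr' : r2 + ε' ≤ 2 * Real.cos α2 := by
        by_contra hcon
        push Not at hcon
        rw [mem_closedBall_zero_iff] at hin'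
        have h := nsq (pt (δ2 + α2) - (r2 + ε') • pt δ2)
        have e0 : (pt (δ2 + α2) - (r2 + ε') • pt δ2) 0 =
          Real.cos (δ2 + α2) - (r2 + ε') * Real.cos δ2 := rfl
        have e1 : (pt (δ2 + α2) - (r2 + ε') • pt δ2) 1 =
          Real.sin (δ2 + α2) - (r2 + ε') * Real.sin δ2 := rfl
        have h3 : Real.cos α2 = Real.cos (δ2 + α2) * Real.cos δ2 +
            Real.sin (δ2 + α2) * Real.sin δ2 := by
          rw [← Real.cos_sub]; congr 1; ring
        have h1 := Real.sin_sq_add_cos_sq (δ2 + α2)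
        have h2 := Real.sin_sq_add_cos_sq δ2
        have h4 : ‖pt (δ2 + α2) - (r2 + ε') • pt δ2‖ ^ 2 =
            1 + (r2 + ε') * ((r2 + ε') - 2 * Real.cos α2) := by
          rw [h, e0, e1, h3]
          linear_combination h1 + (r2 + ε') ^ 2 * h2
        have h5 : 0 < (r2 + ε') * ((r2 + ε') - 2 * Real.cos α2) :=
          mul_pos (by linarith) (by linarith)
        have h6 := norm_nonneg (pt (δ2 + α2) - (r2 + ε') • pt δ2)
        nlinarith
      have G2 := good h2.conn hZ'.conn h2.comp hZ'.comp h2.ball hZ'.ball hZ'.disj h2.al hr2 h2.rc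
        (h2.bk hr2) hε' hεr' hZε' f1 f2 f3 f4 f5 f6 (f9 ▸ h2.pK) (f10 ▸ h2.qK)
      have F1 := G1 (g - w') (by
        have : δ1 + α1 + (g - w') = δ2 + α2 - w' := by rw [hg]; ring
        rw [this, ← f10]; exact hZ.sub h2.qK)
      have F2 := G1 (g + u') (by
        have : δ1 + α1 + (g + u') = δ2 + α2 + u' := by rw [hg]; ring
        rw [this, ← f9]; exact hZ.sub h2.pK)
      have F3 := G2 (-g + u) (by
        have : δ2 + α2 + (-g + u) = δ1 + α1 + u := by rw [hg]; ring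
        rw [this, ← g9]; exact hZ'.sub h1.pK)
      have hlt := order_ee hg0 hg1 g1 g2 g4 g5 f1 f2 f4 f5 F1 F2 F3
      exact fin u w' g1.le f4.le hlt.le g7 f8 g9 f10
    · have hz := h2.z hr2.symm
      have F1 := G1 g (by
        have : δ1 + α1 + g = δ2 + α2 := by rw [hg]; ring
        rw [this, ← hz.2]; exact hZ.sub h2.qK)
      have hlt := order_en hg0 hg1 g2 g4 g5 F1
      exact fin u 0 g1.le le_rfl (by linarith) g7 (A2.zero_um h2.al hr2.symm).le g9
        (by rw [sub_zero]; exact hz.2)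
  · have hz1 := h1.z hr1.symm
    rcases h2.r0.lt_or_eq with hr2 | hr2
    · obtain ⟨u', w', f1, f2, f3, f4, f5, f6, f7, f8, f9, f10⟩ := h2.pos hr2 A2
      obtain ⟨Z', hZ'⟩ := H2 hr2
      obtain ⟨ε', hε', hZε'⟩ := hZ'.arm
      have hin' := hZ'.ball hZε'
      have hc2 : 0 < Real.cos α2 := lt_of_lt_of_le hr2 h2.rc
      have hεr' : r2 + ε' ≤ 2 * Real.cos α2 := by
        by_contra hcon
        push Not at hcon
        rw [mem_closedBall_zero_iff] at hin'
        have h := nsq (pt (δ2 + α2) - (r2 + ε') • pt δ2)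
        have e0 : (pt (δ2 + α2) - (r2 + ε') • pt δ2) 0 =
          Real.cos (δ2 + α2) - (r2 + ε') * Real.cos δ2 := rfl
        have e1 : (pt (δ2 + α2) - (r2 + ε') • pt δ2) 1 =
          Real.sin (δ2 + α2) - (r2 + ε') * Real.sin δ2 := rfl
        have h3 : Real.cos α2 = Real.cos (δ2 + α2) * Real.cos δ2 +
            Real.sin (δ2 + α2) * Real.sin δ2 := by
          rw [← Real.cos_sub]; congr 1; ring
        have h1 := Real.sin_sq_add_cos_sq (δ2 + α2)
        have h2 := Real.sin_sq_add_cos_sq δ2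
        have h4 : ‖pt (δ2 + α2) - (r2 + ε') • pt δ2‖ ^ 2 =
            1 + (r2 + ε') * ((r2 + ε') - 2 * Real.cos α2) := by
          rw [h, e0, e1, h3]
          linear_combination h1 + (r2 + ε') ^ 2 * h2
        have h5 : 0 < (r2 + ε') * ((r2 + ε') - 2 * Real.cos α2) :=
          mul_pos (by linarith) (by linarith)
        have h6 := norm_nonneg (pt (δ2 + α2) - (r2 + ε') • pt δ2)
        nlinarith
      have G2 := good h2.conn hZ'.conn h2.comp hZ'.comp h2.ball hZ'.ball hZ'.disj h2.al hr2 h2.rc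
        (h2.bk hr2) hε' hεr' hZε' f1 f2 f3 f4 f5 f6 (f9 ▸ h2.pK) (f10 ▸ h2.qK)
      have F3 := G2 (-g) (by
        have : δ2 + α2 + -g = δ1 + α1 := by rw [hg]; ring
        rw [this, ← hz1.1]; exact hZ'.sub h1.pK)
      have hlt := order_ne hg0 hg1 f1 f2 f5 F3
      exact fin 0 w' le_rfl f4.le (by linarith) (A1.zero_up h1.al hr1.symm).le f8
        (by rw [add_zero]; exact hz1.1) f10
    · have hz2 := h2.z hr2.symm
      exact fin 0 0 le_rfl le_rfl (by linarith) (A1.zero_up h1.al hr1.symm).le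
        (A2.zero_um h2.al hr2.symm).le (by rw [add_zero]; exact hz1.1)
        (by rw [sub_zero]; exact hz2.2)

end NH
end H11ST
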