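import Pool.Agent.H11ST.Cells
import Pool.Agent.Helper47.Brouwer
open MeasureTheory Metric Set Filter Topology Real
open scoped ENNReal NNReal

/-!
Row CROSS: two disjoint compact connected sets in the closed unit disc have no interlaced points on
the unit circle (from the theorem of Poincare and Miranda).
-/

namespace H11ST
namespace NH

/-- the cross product in the plane -/
def cr (a b : E 2) : ℝ := a 0 * b 1 - a 1 * b 0

theorem box_cross {A B : Set (ℝ × ℝ)} {M : ℝ} (hA : ∀ p ∈ A, |p.1| ≤ M ∧ |p.2| ≤ M)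
    (hB : ∀ p ∈ B, |p.1| ≤ M ∧ |p.2| ≤ M) {a0 a1 b0 b1 : ℝ × ℝ} (jA : JoinedIn A a0 a1)
    (jB : JoinedIn B b0 b1) (ha0 : a0.1 = -M) (ha1 : a1.1 = M) (hb0 : b0.2 = -M)
    (hb1 : b1.2 = M) : (A ∩ B).Nonempty := by
  obtain ⟨α, hα⟩ := jA
  obtain ⟨β, hβ⟩ := jB
  have hα' : ∀ s : ℝ, α.extend s ∈ A := fun s => hα (projIcc (0 : ℝ) 1 zero_le_one s)
  have hβ' : ∀ s : ℝ, β.extend s ∈ B := fun s => hβ (projIcc (0 : ℝ) 1 zero_le_one s)
  obtain ⟨x, -, hx⟩ := Pool.Agent.Helper47.Brouwer.poincare_miranda (ι := Fin 2) 0 1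
    (by intro i; norm_num)
    (fun x => ![(α.extend (x 0)).1 - (β.extend (x 1)).1, (β.extend (x 1)).2 - (α.extend (x 0)).2])
    (by
      apply Continuous.continuousOn
      have h1 := α.continuous_extend
      have h2 := β.continuous_extend
      refine continuous_pi fun i => ?_
      fin_cases i
      · simp only [Fin.zero_eta, Matrix.cons_val_zero]
        fun_prop
      · simp only [Fin.mk_one, Matrix.cons_val_one, Matrix.cons_val_fin_one]
        fun_prop)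
    (by
      intro x _ i hi
      fin_cases i
      · have h0 : x 0 = 0 := by simpa using hi
        have hb := abs_le.1 (hB _ (hβ' (x 1))).1
        simp only [Fin.zero_eta, Matrix.cons_val_zero, h0, Path.extend_zero, ha0]
        linarith [hb.1]
      · have h0 : x 1 = 0 := by simpa using hi
        have hb := abs_le.1 (hA _ (hα' (x 0))).2
        simp only [Fin.mk_one, Matrix.cons_val_one, Matrix.cons_val_fin_one, h0, Path.extend_zero,
          hb0]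
        linarith [hb.1])
    (by
      intro x _ i hi
      fin_cases i
      · have h0 : x 0 = 1 := by simpa using hi
        have hb := abs_le.1 (hB _ (hβ' (x 1))).1
        simp only [Fin.zero_eta, Matrix.cons_val_zero, h0, Path.extend_one, ha1]
        linarith [hb.2]
      · have h0 : x 1 = 1 := by simpa using hi
        have hb := abs_le.1 (hA _ (hα' (x 0))).2
        simp only [Fin.mk_one, Matrix.cons_val_one, Matrix.cons_val_fin_one, h0, Path.extend_one,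
          hb1]
        linarith [hb.2])
  have e0 := congrFun hx 0
  have e1 := congrFun hx 1
  simp only [Matrix.cons_val_zero, Matrix.cons_val_one, Matrix.cons_val_fin_one, Pi.zero_apply]
    at e0 e1
  refine ⟨α.extend (x 0), hα' _, ?_⟩
  have : α.extend (x 0) = β.extend (x 1) := Prod.ext (by linarith) (by linarith)
  rw [this]
  exact hβ' _

/-- chains in a connected set give paths in a neighbourhood -/
theorem chain_joined {X : Set (E 2)} (hX : IsPreconnected X) (hXb : X ⊆ closedBall 0 1) {δ : ℝ}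
    (hδ : 0 < δ) {x1 x2 : E 2} (h1 : x1 ∈ X) (h2 : x2 ∈ X) :
    JoinedIn {z | z ∈ closedBall (0 : E 2) 1 ∧ ∃ x ∈ X, dist z x < δ} x1 x2 := by
  set U : Set (E 2) := {z | z ∈ closedBall (0 : E 2) 1 ∧ ∃ x ∈ X, dist z x < δ} with hU
  have key : ∀ y ∈ X, ∀ w ∈ X, dist w y < δ → JoinedIn U y w := by
    intro y hy w hw hd
    have hc : Convex ℝ (closedBall (0 : E 2) 1 ∩ ball y δ) :=
      (convex_closedBall _ _).inter (convex_ball _ _)
    have hp : IsPathConnected (closedBall (0 : E 2) 1 ∩ ball y δ) :=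
      hc.isPathConnected ⟨y, hXb hy, mem_ball_self hδ⟩
    exact (hp.joinedIn y ⟨hXb hy, mem_ball_self hδ⟩ w ⟨hXb hw, hd⟩).mono
      fun z hz => ⟨hz.1, y, hy, hz.2⟩
  by_contra hcon
  set S : Set (E 2) := {y | JoinedIn U x1 y} with hS
  have hx1U : x1 ∈ U := ⟨hXb h1, x1, h1, by rw [dist_self]; exact hδ⟩
  have hx1S : x1 ∈ S := JoinedIn.refl hx1U
  obtain ⟨w, hw, hw1, hw2⟩ := hX (⋃ y ∈ X ∩ S, ball y δ) (⋃ y ∈ X \ S, ball y δ)
    (isOpen_biUnion fun _ _ => isOpen_ball) (isOpen_biUnion fun _ _ => isOpen_ball)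
    (by
      intro y hy
      by_cases hyS : y ∈ S
      · left
        exact mem_biUnion (⟨hy, hyS⟩ : y ∈ X ∩ S) (mem_ball_self hδ)
      · right
        exact mem_biUnion (⟨hy, hyS⟩ : y ∈ X \ S) (mem_ball_self hδ))
    ⟨x1, h1, mem_biUnion (⟨h1, hx1S⟩ : x1 ∈ X ∩ S) (mem_ball_self hδ)⟩
    ⟨x2, h2, mem_biUnion (⟨h2, hcon⟩ : x2 ∈ X \ S) (mem_ball_self hδ)⟩
  obtain ⟨y1, hy1, hwy1⟩ := mem_iUnion₂.1 hw1
  obtain ⟨y2, hy2, hwy2⟩ := mem_iUnion₂.1 hw2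
  have j1 : JoinedIn U y1 w := key y1 hy1.1 w hw hwy1
  have j2 : JoinedIn U y2 w := key y2 hy2.1 w hw hwy2
  exact hy2.2 ((JoinedIn.trans hy1.2 j1).trans j2.symm)

/-- extension downwards of a point of the circle -/
theorem ext_down {a b : ℝ} (hab : a ^ 2 + b ^ 2 = 1) : ∃ (T : Set (ℝ × ℝ)) (e : ℝ),
    JoinedIn T (e, -2) (a, b) ∧ ∀ p ∈ T, p.2 ≤ b ∧ -2 ≤ p.2 ∧ |p.1| ≤ 2 ∧
      (p.1 ^ 2 + p.2 ^ 2 ≤ 1 → p = (a, b)) := by
  have ha1 : |a| ≤ 1 := abs_le_one_iff_mul_self_le_one.2 (by nlinarith [sq_nonneg b])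
  have hb1 : |b| ≤ 1 := abs_le_one_iff_mul_self_le_one.2 (by nlinarith [sq_nonneg a])
  have ha := abs_le.1 ha1
  have hb := abs_le.1 hb1
  obtain ⟨e, he2, hea⟩ : ∃ e : ℝ, |e| = 2 ∧ ∀ x ∈ uIcc a e, |x| ≤ 2 ∧ (|x| ≤ |a| → x = a) := by
    rcases le_or_gt 0 a with h0 | h0
    · refine ⟨2, by norm_num, ?_⟩
      intro x hx
      rw [uIcc_of_le (by linarith [ha.2])] at hx
      have hx0 : 0 ≤ x := h0.trans hx.1
      rw [abs_of_nonneg hx0, abs_of_nonneg h0]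
      exact ⟨hx.2, fun h => le_antisymm h hx.1⟩
    · refine ⟨-2, by norm_num, ?_⟩
      intro x hx
      rw [uIcc_of_ge (by linarith [ha.1])] at hx
      have hx0 : x < 0 := lt_of_le_of_lt hx.2 h0
      rw [abs_of_neg hx0, abs_of_neg h0]
      exact ⟨by linarith [hx.1], fun h => le_antisymm hx.2 (by linarith)⟩
  refine ⟨({e} ×ˢ Icc (-2) b) ∪ (uIcc a e ×ˢ {b}), e, ?_, ?_⟩
  · have c1 : IsPathConnected (({e} : Set ℝ) ×ˢ Icc (-2) b) :=
      ((convex_singleton e).prod (convex_Icc _ _)).isPathConnected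
        ⟨(e, b), rfl, by linarith [hb.1], le_rfl⟩
    have c2 : IsPathConnected ((uIcc a e) ×ˢ ({b} : Set ℝ)) :=
      ((convex_uIcc a e).prod (convex_singleton b)).isPathConnected
        ⟨(e, b), right_mem_uIcc, rfl⟩
    exact ((c1.joinedIn (e, -2) ⟨rfl, le_rfl, by linarith [hb.1]⟩ (e, b)
      ⟨rfl, by linarith [hb.1], le_rfl⟩).mono subset_union_left).trans
      ((c2.joinedIn (e, b) ⟨right_mem_uIcc, rfl⟩ (a, b) ⟨left_mem_uIcc, rfl⟩).mono
        subset_union_right)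
  · rintro p (⟨h1, h2⟩ | ⟨h1, h2⟩)
    · have h1' : p.1 = e := h1
      refine ⟨h2.2, h2.1, by rw [h1', he2], ?_⟩
      intro h3
      exfalso
      have h4 : p.1 ^ 2 = 4 := by rw [h1', ← sq_abs, he2]; norm_num
      nlinarith [sq_nonneg p.2]
    · have h2' : p.2 = b := h2
      refine ⟨h2'.le, by rw [h2']; linarith [hb.1], (hea _ h1).1, ?_⟩
      intro h3
      rw [h2'] at h3
      have h4 : p.1 ^ 2 ≤ a ^ 2 := by linarith
      have h5 : |p.1| ≤ |a| := sq_le_sq.1 h4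
      exact Prod.ext ((hea _ h1).2 h5) h2'

/-- extension upwards of a point of the circle -/
theorem ext_up {a b : ℝ} (hab : a ^ 2 + b ^ 2 = 1) : ∃ (T : Set (ℝ × ℝ)) (e : ℝ),
    JoinedIn T (a, b) (e, 2) ∧ ∀ p ∈ T, b ≤ p.2 ∧ p.2 ≤ 2 ∧ |p.1| ≤ 2 ∧
      (p.1 ^ 2 + p.2 ^ 2 ≤ 1 → p = (a, b)) := by
  obtain ⟨T, e, ⟨γ, hγ⟩, hT⟩ := ext_down (a := a) (b := -b) (by rw [neg_sq]; exact hab)
  have hc : Continuous fun p : ℝ × ℝ => (p.1, -p.2) := by fun_prop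
  refine ⟨{p | (p.1, -p.2) ∈ T}, e, ?_, ?_⟩
  · refine JoinedIn.symm ⟨(γ.map hc).cast (by simp) (by simp), ?_⟩
    intro t
    simp only [Path.cast_coe, Path.map_coe, Function.comp_apply, mem_ofPred_eq, neg_neg]
    exact hγ t
  · intro p hp
    obtain ⟨h1, h2, h3, h4⟩ := hT _ hp
    simp only at h1 h2 h3 h4
    refine ⟨by linarith, by linarith, h3, fun h => ?_⟩
    have h5 := h4 (by rw [neg_sq]; exact h)
    have h6 := congrArg Prod.fst h5
    have h7 := congrArg Prod.snd h5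
    simp only at h6 h7
    exact Prod.ext h6 (by simpa using h7)

/-- coordinates with respect to the unit vector `(t0, t1)` -/
def Phi (t0 t1 : ℝ) (z : E 2) : ℝ × ℝ := (z 0 * t0 + z 1 * t1, z 1 * t0 - z 0 * t1)

theorem Phi_cont (t0 t1 : ℝ) : Continuous (Phi t0 t1) := by
  unfold Phi
  fun_prop

theorem Phi_norm {t0 t1 : ℝ} (ht : t0 ^ 2 + t1 ^ 2 = 1) (z : E 2) :
    (Phi t0 t1 z).1 ^ 2 + (Phi t0 t1 z).2 ^ 2 = ‖z‖ ^ 2 := by
  have h : ‖z‖ ^ 2 = z 0 ^ 2 + z 1 ^ 2 := by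
    rw [EuclideanSpace.norm_eq, Real.sq_sqrt (Finset.sum_nonneg fun i _ => sq_nonneg _),
      Fin.sum_univ_two]
    simp
  rw [h]
  simp only [Phi]
  have : (z 0 * t0 + z 1 * t1) ^ 2 + (z 1 * t0 - z 0 * t1) ^ 2 =
      (z 0 ^ 2 + z 1 ^ 2) * (t0 ^ 2 + t1 ^ 2) := by ring
  rw [this, ht, mul_one]

theorem Phi_inj {t0 t1 : ℝ} (ht : t0 ^ 2 + t1 ^ 2 = 1) {z w : E 2}
    (h : Phi t0 t1 z = Phi t0 t1 w) : z = w := by
  have h1 : z 0 * t0 + z 1 * t1 = w 0 * t0 + w 1 * t1 := congrArg Prod.fst h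
  have h2 : z 1 * t0 - z 0 * t1 = w 1 * t0 - w 0 * t1 := congrArg Prod.snd h
  have e0 : (z 0 - w 0) * (t0 ^ 2 + t1 ^ 2) = 0 := by
    linear_combination t0 * h1 - t1 * h2
  have e1 : (z 1 - w 1) * (t0 ^ 2 + t1 ^ 2) = 0 := by
    linear_combination t1 * h1 + t0 * h2
  rw [ht, mul_one] at e0 e1
  ext i
  fin_cases i
  · change z 0 = w 0
    linarith
  · change z 1 = w 1
    linarith

theorem joined_image {U : Set (E 2)} {f : E 2 → ℝ × ℝ} (hf : Continuous f) {x y : E 2}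
    (h : JoinedIn U x y) : JoinedIn (f '' U) (f x) (f y) := by
  obtain ⟨γ, hγ⟩ := h
  exact ⟨γ.map hf, fun t => ⟨γ t, hγ t, rfl⟩⟩

/-- the case of a point below and a point above the chord -/
theorem cross_aux {X Z : Set (E 2)} (hX : IsPreconnected X) (hZ : IsPreconnected Z)
    (cX : IsCompact X) (cZ : IsCompact Z) (bX : X ⊆ closedBall 0 1) (bZ : Z ⊆ closedBall 0 1)
    (hd : Disjoint X Z) {x1 x2 z1 z2 : E 2} (hx1 : x1 ∈ X) (hx2 : x2 ∈ X) (hz1 : z1 ∈ Z)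
    (hz2 : z2 ∈ Z) (nx2 : ‖x2‖ = 1) (nz1 : ‖z1‖ = 1) (nz2 : ‖z2‖ = 1)
    {t0 t1 c h : ℝ} (ht : t0 ^ 2 + t1 ^ 2 = 1) (hc : 0 < c) (e1 : Phi t0 t1 x1 = (-c, h))
    (e2 : Phi t0 t1 x2 = (c, h)) (hlt : (Phi t0 t1 z1).2 < h) (hgt : h < (Phi t0 t1 z2).2) :
    False := by
  -- distance of the two sets
  obtain ⟨r, hr, hdist⟩ : ∃ r : ℝ, 0 < r ∧ ∀ x ∈ X, ∀ z ∈ Z, r ≤ dist x z := by
    obtain ⟨r, hr, h'⟩ := hd.exists_thickenings cX cZ.isClosed
    refine ⟨r, hr, fun x hx z hz => ?_⟩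
    by_contra hcon
    push Not at hcon
    have m1 : x ∈ thickening r X := self_subset_thickening hr X hx
    have m2 : x ∈ thickening r Z := mem_thickening_iff.2 ⟨z, hz, hcon⟩
    exact (disjoint_left.1 h') m1 m2
  set δ : ℝ := r / 2 with hδ
  have hδ0 : 0 < δ := by positivity
  set UX : Set (E 2) := {z | z ∈ closedBall (0 : E 2) 1 ∧ ∃ x ∈ X, dist z x < δ} with hUX
  set UZ : Set (E 2) := {z | z ∈ closedBall (0 : E 2) 1 ∧ ∃ x ∈ Z, dist z x < δ} with hUZ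
  have jX : JoinedIn UX x1 x2 := chain_joined hX bX hδ0 hx1 hx2
  have jZ : JoinedIn UZ z1 z2 := chain_joined hZ bZ hδ0 hz1 hz2
  have hUU : ∀ z, z ∈ UX → z ∈ UZ → False := by
    rintro z ⟨-, x, hx, hxz⟩ ⟨-, y, hy, hyz⟩
    have h1 := hdist x hx y hy
    have h2 := dist_triangle x z y
    rw [dist_comm x z] at h2
    linarith
  have hXUZ : ∀ z ∈ X, z ∉ UZ := fun z hz hz' =>
    hUU z ⟨bX hz, z, hz, by rw [dist_self]; exact hδ0⟩ hz'
  have hZUX : ∀ z ∈ Z, z ∉ UX := fun z hz hz' =>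
    hUU z hz' ⟨bZ hz, z, hz, by rw [dist_self]; exact hδ0⟩
  set F := Phi t0 t1 with hF
  have hFc : Continuous F := Phi_cont t0 t1
  have hFn : ∀ z, (F z).1 ^ 2 + (F z).2 ^ 2 = ‖z‖ ^ 2 := Phi_norm ht
  have hch : c ^ 2 + h ^ 2 = 1 := by
    have := hFn x2
    rw [e2, nx2] at this
    simpa using this
  have hc1 : c ≤ 1 := by nlinarith [sq_nonneg h]
  have hh1 : |h| ≤ 1 := abs_le_one_iff_mul_self_le_one.2 (by nlinarith)
  have hF1 : ∀ z ∈ closedBall (0 : E 2) 1, (F z).1 ^ 2 + (F z).2 ^ 2 ≤ 1 := by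
    intro z hz
    rw [hFn]
    have h1 : ‖z‖ ≤ 1 := by simpa using hz
    nlinarith [norm_nonneg z]
  have hFb : ∀ z ∈ closedBall (0 : E 2) 1, |(F z).1| ≤ 2 ∧ |(F z).2| ≤ 2 := by
    intro z hz
    have h1 := hF1 z hz
    constructor
    · exact (abs_le_one_iff_mul_self_le_one.2 (by nlinarith [sq_nonneg (F z).2])).trans
        (by norm_num)
    · exact (abs_le_one_iff_mul_self_le_one.2 (by nlinarith [sq_nonneg (F z).1])).trans
        (by norm_num)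
  obtain ⟨T1, d1, jT1, hT1⟩ := ext_down (a := (F z1).1) (b := (F z1).2)
    (by rw [hFn, nz1]; norm_num)
  obtain ⟨T2, d2, jT2, hT2⟩ := ext_up (a := (F z2).1) (b := (F z2).2)
    (by rw [hFn, nz2]; norm_num)
  set A : Set (ℝ × ℝ) := (F '' UX) ∪ ((Icc (-2) (-c) ×ˢ {h}) ∪ (Icc c 2 ×ˢ {h})) with hA
  set B : Set (ℝ × ℝ) := (F '' UZ) ∪ (T1 ∪ T2) with hB
  have jA : JoinedIn A (-2, h) (2, h) := by
    have c1 : IsPathConnected ((Icc (-2) (-c)) ×ˢ ({h} : Set ℝ)) :=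
      ((convex_Icc _ _).prod (convex_singleton h)).isPathConnected
        ⟨(-c, h), ⟨by linarith, le_rfl⟩, rfl⟩
    have c2 : IsPathConnected ((Icc c 2) ×ˢ ({h} : Set ℝ)) :=
      ((convex_Icc _ _).prod (convex_singleton h)).isPathConnected
        ⟨(c, h), ⟨le_rfl, by linarith⟩, rfl⟩
    have j1 : JoinedIn A (-2, h) (-c, h) :=
      (c1.joinedIn (-2, h) ⟨⟨le_rfl, by linarith⟩, rfl⟩ (-c, h)
        ⟨⟨by linarith, le_rfl⟩, rfl⟩).mono fun p hp => Or.inr (Or.inl hp)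
    have j3 : JoinedIn A (c, h) (2, h) :=
      (c2.joinedIn (c, h) ⟨⟨le_rfl, by linarith⟩, rfl⟩ (2, h)
        ⟨⟨by linarith, le_rfl⟩, rfl⟩).mono fun p hp => Or.inr (Or.inr hp)
    have j2 : JoinedIn A (-c, h) (c, h) := by
      have := joined_image hFc jX
      rw [e1, e2] at this
      exact this.mono subset_union_left
    exact (j1.trans j2).trans j3
  have jB : JoinedIn B (d1, -2) (d2, 2) := by
    have j2 : JoinedIn B (F z1) (F z2) := (joined_image hFc jZ).mono subset_union_left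
    have j1 : JoinedIn B (d1, -2) (F z1) := jT1.mono fun p hp => Or.inr (Or.inl hp)
    have j3 : JoinedIn B (F z2) (d2, 2) := jT2.mono fun p hp => Or.inr (Or.inr hp)
    exact (j1.trans j2).trans j3
  have hlev : ∀ p : ℝ × ℝ, p ∈ (Icc (-2) (-c) ×ˢ {h}) ∪ (Icc c 2 ×ˢ {h}) →
      |p.1| ≤ 2 ∧ p.2 = h ∧ (p.1 ^ 2 + p.2 ^ 2 ≤ 1 → p = F x1 ∨ p = F x2) := by
    rintro p (⟨h1, h2⟩ | ⟨h1, h2⟩)
    · have h2' : p.2 = h := h2
      refine ⟨abs_le.2 ⟨h1.1, by linarith [h1.2]⟩, h2', fun h3 => Or.inl ?_⟩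
      rw [e1]
      rw [h2'] at h3
      have h4 := h1.2
      exact Prod.ext (by nlinarith) h2'
    · have h2' : p.2 = h := h2
      refine ⟨abs_le.2 ⟨by linarith [h1.1], h1.2⟩, h2', fun h3 => Or.inr ?_⟩
      rw [e2]
      rw [h2'] at h3
      have h4 := h1.1
      exact Prod.ext (by nlinarith) h2'
  have bA : ∀ p ∈ A, |p.1| ≤ 2 ∧ |p.2| ≤ 2 := by
    rintro p (⟨z, hz, rfl⟩ | hp)
    · exact hFb z hz.1
    · obtain ⟨h1, h2, -⟩ := hlev p hp
      exact ⟨h1, by rw [h2]; exact hh1.trans (by norm_num)⟩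
  have bB : ∀ p ∈ B, |p.1| ≤ 2 ∧ |p.2| ≤ 2 := by
    rintro p (⟨z, hz, rfl⟩ | hp | hp)
    · exact hFb z hz.1
    · obtain ⟨h1, h2, h3, -⟩ := hT1 p hp
      have h4 := abs_le.1 (hFb z1 (bZ hz1)).2
      exact ⟨h3, abs_le.2 ⟨h2, by linarith [h4.2]⟩⟩
    · obtain ⟨h1, h2, h3, -⟩ := hT2 p hp
      have h4 := abs_le.1 (hFb z2 (bZ hz2)).2
      exact ⟨h3, abs_le.2 ⟨by linarith [h4.1], h2⟩⟩
  obtain ⟨p, hpA, hpB⟩ := box_cross (M := 2) bA bB jA jB rfl rfl rfl rfl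
  rcases hpA with ⟨z, hz, rfl⟩ | hpA
  · rcases hpB with ⟨w, hw, hwz⟩ | hpB | hpB
    · have := Phi_inj ht hwz
      rw [this] at hw
      exact hUU z hz hw
    · have h1 := (hT1 _ hpB).2.2.2 (hF1 z hz.1)
      have h2 : z = z1 := Phi_inj ht h1
      rw [h2] at hz
      exact hZUX z1 hz1 hz
    · have h1 := (hT2 _ hpB).2.2.2 (hF1 z hz.1)
      have h2 : z = z2 := Phi_inj ht h1
      rw [h2] at hz
      exact hZUX z2 hz2 hz
  · obtain ⟨-, h2, h3⟩ := hlev p hpA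
    rcases hpB with ⟨w, hw, rfl⟩ | hpB | hpB
    · rcases h3 (hF1 w hw.1) with h4 | h4
      · have h5 : w = x1 := Phi_inj ht h4
        rw [h5] at hw
        exact hXUZ x1 hx1 hw
      · have h5 : w = x2 := Phi_inj ht h4
        rw [h5] at hw
        exact hXUZ x2 hx2 hw
    · have h4 := (hT1 p hpB).1
      linarith
    · have h4 := (hT2 p hpB).1
      linarith

/-- **(CROSS)** disjoint compact connected sets in the closed unit disc have no interlaced points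
on the unit circle. -/
theorem cross {X Z : Set (E 2)} (hX : IsPreconnected X) (hZ : IsPreconnected Z)
    (cX : IsCompact X) (cZ : IsCompact Z) (bX : X ⊆ closedBall 0 1) (bZ : Z ⊆ closedBall 0 1)
    (hd : Disjoint X Z) {x1 x2 z1 z2 : E 2} (hx1 : x1 ∈ X) (hx2 : x2 ∈ X) (hz1 : z1 ∈ Z)
    (hz2 : z2 ∈ Z) (nx1 : ‖x1‖ = 1) (nx2 : ‖x2‖ = 1) (nz1 : ‖z1‖ = 1) (nz2 : ‖z2‖ = 1)
    (hne : x1 ≠ x2) : 0 < cr (x2 - x1) (z1 - x1) * cr (x2 - x1) (z2 - x1) := by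
  set d : ℝ := ‖x2 - x1‖ with hd'
  have hd0 : 0 < d := norm_pos_iff.2 (sub_ne_zero.2 hne.symm)
  set t0 : ℝ := (x2 - x1) 0 / d with ht0
  set t1 : ℝ := (x2 - x1) 1 / d with ht1
  have hnorm : ∀ z : E 2, ‖z‖ ^ 2 = z 0 ^ 2 + z 1 ^ 2 := by
    intro z
    rw [EuclideanSpace.norm_eq, Real.sq_sqrt (Finset.sum_nonneg fun i _ => sq_nonneg _),
      Fin.sum_univ_two]
    simp
  have hdd : d ^ 2 = (x2 - x1) 0 ^ 2 + (x2 - x1) 1 ^ 2 := hnorm _
  have ht : t0 ^ 2 + t1 ^ 2 = 1 := by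
    rw [ht0, ht1, div_pow, div_pow, ← add_div, ← hdd]
    exact div_self (by positivity)
  have hd1 : (x2 - x1) 0 = d * t0 := by rw [ht0]; field_simp
  have hd2 : (x2 - x1) 1 = d * t1 := by rw [ht1]; field_simp
  have hs1 : x2 0 = x1 0 + d * t0 := by
    have : (x2 - x1) 0 = x2 0 - x1 0 := rfl
    linarith
  have hs2 : x2 1 = x1 1 + d * t1 := by
    have : (x2 - x1) 1 = x2 1 - x1 1 := rfl
    linarith
  have hcr : ∀ z : E 2, cr (x2 - x1) (z - x1) = d * ((Phi t0 t1 z).2 - (Phi t0 t1 x1).2) := by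
    intro z
    have e0 : (z - x1) 0 = z 0 - x1 0 := rfl
    have e1 : (z - x1) 1 = z 1 - x1 1 := rfl
    rw [cr, hd1, hd2, e0, e1]
    simp only [Phi]
    ring
  set h : ℝ := (Phi t0 t1 x1).2 with hh
  have hF2 : (Phi t0 t1 x2).2 = h := by
    rw [hh]
    simp only [Phi]
    rw [hs1, hs2]
    ring
  have hF1 : (Phi t0 t1 x2).1 = (Phi t0 t1 x1).1 + d := by
    simp only [Phi]
    rw [hs1, hs2]
    have : (x1 0 + d * t0) * t0 + (x1 1 + d * t1) * t1 =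
      x1 0 * t0 + x1 1 * t1 + d * (t0 ^ 2 + t1 ^ 2) := by ring
    rw [this, ht, mul_one]
  have n1 := Phi_norm ht x1
  have n2 := Phi_norm ht x2
  rw [nx1] at n1
  rw [nx2, hF2, hF1] at n2
  rw [← hh] at n1
  have hc1 : (Phi t0 t1 x1).1 = -(d / 2) := by
    have : d * (2 * (Phi t0 t1 x1).1 + d) = 0 := by nlinarith
    rcases mul_eq_zero.1 this with h0 | h0
    · exact absurd h0 hd0.ne'
    · linarith
  have hc2 : (Phi t0 t1 x2).1 = d / 2 := by rw [hF1, hc1]; ring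
  have e1 : Phi t0 t1 x1 = (-(d / 2), h) := Prod.ext hc1 rfl
  have e2 : Phi t0 t1 x2 = (d / 2, h) := Prod.ext hc2 hF2
  -- a point of `Z` on the circle is not at the level `h`
  have hne' : ∀ z ∈ Z, ‖z‖ = 1 → (Phi t0 t1 z).2 ≠ h := by
    intro z hz nz he
    have n3 := Phi_norm ht z
    rw [nz, he] at n3
    have h5 : ((Phi t0 t1 z).1 - d / 2) * ((Phi t0 t1 z).1 + d / 2) = 0 := by
      rw [hc1] at n1
      nlinarith
    rcases mul_eq_zero.1 h5 with h6 | h6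
    · have : z = x2 := Phi_inj ht (by rw [e2]; exact Prod.ext (by linarith) he)
      exact (disjoint_left.1 hd) hx2 (this ▸ hz)
    · have : z = x1 := Phi_inj ht (by rw [e1]; exact Prod.ext (by linarith) he)
      exact (disjoint_left.1 hd) hx1 (this ▸ hz)
  have hdp : 0 < d / 2 := by positivity
  rw [hcr, hcr]
  rcases lt_or_gt_of_ne (hne' z1 hz1 nz1) with h1 | h1 <;>
    rcases lt_or_gt_of_ne (hne' z2 hz2 nz2) with h2 | h2
  · have a1 : d * ((Phi t0 t1 z1).2 - h) < 0 := mul_neg_of_pos_of_neg hd0 (by linarith)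
    have a2 : d * ((Phi t0 t1 z2).2 - h) < 0 := mul_neg_of_pos_of_neg hd0 (by linarith)
    exact mul_pos_of_neg_of_neg a1 a2
  · exact (cross_aux hX hZ cX cZ bX bZ hd hx1 hx2 hz1 hz2 nx2 nz1 nz2 ht hdp e1 e2 h1
      h2).elim
  · exact (cross_aux hX hZ cX cZ bX bZ hd hx1 hx2 hz2 hz1 nx2 nz2 nz1 ht hdp e1 e2 h2
      h1).elim
  · have a1 : 0 < d * ((Phi t0 t1 z1).2 - h) := mul_pos hd0 (by linarith)
    have a2 : 0 < d * ((Phi t0 t1 z2).2 - h) := mul_pos hd0 (by linarith)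
    exact mul_pos a1 a2

end NH
end H11ST
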