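import Pool.Agent.Helper35.NH.GAP
import Pool.Agent.Helper11.NH.Sheet
open MeasureTheory Metric Set Filter Topology Real
open scoped ENNReal NNReal

/-!
Row ORDER of the sheet: `NH_GEO → NH_ORDER`.
-/

namespace H11ST
namespace NH

theorem ev_eq_pt (φ : ℝ) : ev φ = pt φ := rfl

theorem cr_zero_right (a : E 2) : cr a 0 = 0 := by
  have h0 : (0 : E 2) 0 = 0 := rfl
  have h1 : (0 : E 2) 1 = 0 := rfl
  rw [cr, h0, h1]; ring

theorem cr_sq_le (a b : E 2) : cr a b ^ 2 ≤ ‖a‖ ^ 2 * ‖b‖ ^ 2 := by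
  rw [nsq, nsq, cr]
  nlinarith [sq_nonneg (a 0 * b 0 + a 1 * b 1)]

theorem sin_th {φ : ℝ} {s : Fin 3 → E 2} {a : Fin 2 → ℝ} {v : Fin 5 → E 2} {c : Fin 5 → ℝ}
    (hG : Geo φ s a v c) {th rr : Fin 5 → ℝ} (hE : Ex φ v th rr) (i : Fin 5) :
    Real.sin (th i) = cr (pt (φ + dl i)) (s (ft i)) := by
  have h1 := hE.rv i
  rw [hG.vd i] at h1
  have h2 := congrArg (fun z => cr (pt (φ + dl i)) z) h1
  simp only [dv, ev_eq_pt, cr_add_right, cr_smul_right, cr_self, mul_zero, add_zero, cr_pt] at h2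
  rw [h2]
  congr 1; ring

theorem th_lt {φ : ℝ} {s : Fin 3 → E 2} {a : Fin 2 → ℝ} {v : Fin 5 → E 2} {c : Fin 5 → ℝ}
    (hG : Geo φ s a v c) {th rr : Fin 5 → ℝ} (hE : Ex φ v th rr) (i : Fin 5) :
    |th i| < π / 6 := by
  have hpi := Real.pi_pos
  rcases (hE.th6 i).lt_or_eq with h | h
  · exact h
  exfalso
  have h1 := sin_th hG hE i
  have h2 := cr_sq_le (pt (φ + dl i)) (s (ft i))
  rw [← h1, pt_norm] at h2
  have h3 : Real.sin (th i) ^ 2 = 1 / 4 := by
    rcases (abs_eq (by positivity)).1 h with h' | h'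
    · rw [h', Real.sin_pi_div_six]; norm_num
    · rw [h', Real.sin_neg, Real.sin_pi_div_six]; norm_num
  have h4 := hG.sn (ft i)
  have h5 := norm_nonneg (s (ft i))
  nlinarith

theorem th23 {φ : ℝ} {s : Fin 3 → E 2} {a : Fin 2 → ℝ} {v : Fin 5 → E 2} {c : Fin 5 → ℝ}
    (hG : Geo φ s a v c) {th rr : Fin 5 → ℝ} (hE : Ex φ v th rr) : th 2 < th 3 := by
  have hpi := Real.pi_pos
  have h2 := sin_th hG hE 2
  have h3 := sin_th hG hE 3
  have d2 : dl 2 = π := rfl
  have d3 : dl 3 = π := rfl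
  have f2 : ft 2 = 1 := rfl
  have f3 : ft 3 = 2 := rfl
  rw [d2, f2, hG.s1, cr_add_right, cr_smul_right, ev_eq_pt, cr_pt] at h2
  rw [d3, f3, hG.s2, cr_add_right, cr_smul_right, ev_eq_pt, cr_pt] at h3
  have e2 : φ + 2 * π / 3 - (φ + π) = -(π / 3) := by ring
  have e3 : φ - 2 * π / 3 - (φ + π) = π / 3 - 2 * π := by ring
  rw [e2, Real.sin_neg, Real.sin_pi_div_three] at h2
  rw [e3, Real.sin_sub_two_pi, Real.sin_pi_div_three] at h3
  have a0 := hG.apos 0
  have a1 := hG.apos 1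
  have hs := sqrt3_pos
  have hlt : Real.sin (th 2) < Real.sin (th 3) := by
    rw [h2, h3]
    have := mul_pos a0 (by positivity : 0 < √3 / 2)
    have := mul_pos a1 (by positivity : 0 < √3 / 2)
    linarith
  by_contra hcon
  push Not at hcon
  obtain ⟨g1, g2⟩ := abs_le.1 (hE.th6 2)
  obtain ⟨g3, g4⟩ := abs_le.1 (hE.th6 3)
  have := Real.sin_le_sin_of_le_of_le_pi_div_two (x := th 3) (y := th 2) (by linarith)
    (by linarith) hcon
  linarith

/-- the end of an arm does not lie in the rest of the tree -/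
theorem v_not_rest (geo : NH_GEO) {φ : ℝ} {s : Fin 3 → E 2} {a : Fin 2 → ℝ} {v : Fin 5 → E 2}
    {c : Fin 5 → ℝ} (hG : Geo φ s a v c) (i : Fin 5) : v i ∉ rest s v i := by
  intro h
  obtain ⟨-, -, -, -, hr⟩ := geo φ s a v c hG
  have h1 := (hr i).2.2.2.2 ⟨h, right_mem_segment ℝ _ _⟩
  rw [mem_singleton_iff, hG.vd i] at h1
  have h2 : c i • dv φ i = 0 := by simpa using h1
  rcases smul_eq_zero.1 h2 with h3 | h3
  · exact (hG.cpos i).ne' h3
  · have h4 := pt_norm (φ + dl i)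
    rw [← ev_eq_pt] at h4
    change dv φ i = 0 at h3
    rw [dv] at h3
    rw [h3, norm_zero] at h4
    exact one_ne_zero h4.symm

theorem clu {φ : ℝ} {s : Fin 3 → E 2} {a : Fin 2 → ℝ} {v : Fin 5 → E 2} {c : Fin 5 → ℝ}
    (hG : Geo φ s a v c) {S : Set (E 2)} {K : Fin 5 → Set (E 2)} {pp pm : Fin 5 → E 2}
    (hF : Fam S φ v K pp pm) {th rr : Fin 5 → ℝ} (hE : Ex φ v th rr) (i : Fin 5) :
    Clu (K i) (φ + dl i) (th i) (rr i) (pp i) (pm i) := by
  have hpi := Real.pi_pos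
  have hs := sqrt3_pos
  have hv : v i = pt (φ + dl i + th i) - rr i • pt (φ + dl i) := by
    have := hE.rv i
    rw [dv, ev_eq_pt, ev_eq_pt] at this
    rw [← this]; abel
  refine ⟨hE.th6 i, hE.r0 i, ?_, hF.ppn i, hF.pmn i, hF.ppm i, hF.pmm i, ?_, ?_, ?_, ?_,
    hF.conn i, hF.comp i, hF.ball i⟩
  · have := hE.rlow i
    have := Real.sqrt_nonneg (1 / 4 - Real.sin (th i) ^ 2)
    linarith
  · intro hr
    have h1 : v i = pt (φ + dl i + th i) := by rw [hv, hr, zero_smul, sub_zero]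
    have h2 : K i = {v i} := hF.deg i (by rw [h1, pt_norm])
    have h3 := hF.ppm i
    have h4 := hF.pmm i
    rw [h2, mem_singleton_iff] at h3 h4
    exact ⟨h3.trans h1, h4.trans h1⟩
  · intro _
    obtain ⟨p, q, hp, hq, h⟩ := hF.ppc i
    refine ⟨p, q, hp, hq, ?_⟩
    rw [h, hv, ev_eq_pt, ev_eq_pt]
    have e1 : φ + dl i + 1 * (π / 3) = φ + dl i + π / 3 := by ring
    have e2 : φ + dl i + 1 * (2 * π / 3) = φ + dl i + 2 * π / 3 := by ring
    rw [e1, e2]
  · intro _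
    obtain ⟨p, q, hp, hq, h⟩ := hF.pmc i
    refine ⟨p, q, hp, hq, ?_⟩
    rw [h, hv, ev_eq_pt, ev_eq_pt]
    have e1 : φ + dl i + -1 * (π / 3) = φ + dl i - π / 3 := by ring
    have e2 : φ + dl i + -1 * (2 * π / 3) = φ + dl i - 2 * π / 3 := by ring
    rw [e1, e2]
  · intro _ t ht hmem
    have e0 : pt (φ + dl i + th i) - (rr i + t) • pt (φ + dl i) = v i - t • pt (φ + dl i) := by
      rw [hv]; module
    rw [e0] at hmem
    have key : ∀ (σ : ℝ), (σ = 1 ∨ σ = -1) →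
        v i - t • pt (φ + dl i) ∈ NH.cone (v i) (φ + dl i) σ → False := by
      intro σ hσ h
      obtain ⟨p, q, hp, hq, h1⟩ := h
      have h2 : -(t • pt (φ + dl i)) = p • pt (φ + dl i + σ * (π / 3)) +
          q • pt (φ + dl i + σ * (2 * π / 3)) := by
        rw [← ev_eq_pt (φ + dl i + σ * (π / 3)), ← ev_eq_pt (φ + dl i + σ * (2 * π / 3))]
        have h3 : -(t • pt (φ + dl i)) = (v i - t • pt (φ + dl i)) - v i := by abel
        rw [h3, h1]; abel
      have h3 := congrArg (fun z => cr (pt (φ + dl i)) z) h2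
      have h4 : -(t • pt (φ + dl i)) = (-t) • pt (φ + dl i) := by rw [neg_smul]
      simp only [h4, cr_add_right, cr_smul_right, cr_self, mul_zero, cr_pt] at h3
      have e1 : φ + dl i + σ * (π / 3) - (φ + dl i) = σ * (π / 3) := by ring
      have e2 : φ + dl i + σ * (2 * π / 3) - (φ + dl i) = σ * (2 * π / 3) := by ring
      rw [e1, e2] at h3
      have hs2 : Real.sin (2 * π / 3) = √3 / 2 := by
        have : (2 * π / 3 : ℝ) = π - π / 3 := by ring
        rw [this, Real.sin_pi_sub, Real.sin_pi_div_three]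
      have h5 : p + q = 0 := by
        rcases hσ with rfl | rfl
        · rw [one_mul, one_mul, Real.sin_pi_div_three, hs2] at h3
          have : (p + q) * (√3 / 2) = 0 := by linarith
          rcases mul_eq_zero.1 this with h6 | h6
          · exact h6
          · exfalso; linarith
        · rw [neg_one_mul, neg_one_mul, Real.sin_neg, Real.sin_neg, Real.sin_pi_div_three,
            hs2] at h3
          have : (p + q) * (√3 / 2) = 0 := by linarith
          rcases mul_eq_zero.1 this with h6 | h6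
          · exact h6
          · exfalso; linarith
      have hp0 : p = 0 := by linarith
      have hq0 : q = 0 := by linarith
      rw [hp0, hq0, zero_smul, zero_smul, add_zero, neg_eq_zero] at h2
      rcases smul_eq_zero.1 h2 with h6 | h6
      · exact ht.ne' h6
      · have h7 := pt_norm (φ + dl i)
        rw [h6, norm_zero] at h7
        exact one_ne_zero h7.symm
    rcases hF.cone i hmem with h | h
    · exact key 1 (Or.inl rfl) h
    · exact key (-1) (Or.inr rfl) h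

theorem rest_of (geo : NH_GEO) {φ : ℝ} {s : Fin 3 → E 2} {a : Fin 2 → ℝ} {v : Fin 5 → E 2}
    {c : Fin 5 → ℝ} (hG : Geo φ s a v c) {S : Set (E 2)} {K : Fin 5 → Set (E 2)}
    {pp pm : Fin 5 → E 2} (hF : Fam S φ v K pp pm) (hD : Dj s v K) {th rr : Fin 5 → ℝ}
    (hE : Ex φ v th rr) {i j : Fin 5} (hij : i ≠ j) :
    Rest (K i) (K j ∪ rest s v i) (K j) (φ + dl i) (th i) (rr i) := by
  obtain ⟨-, -, hb, ht, hr⟩ := geo φ s a v c hG
  obtain ⟨r1, r2, r3, r4, r5⟩ := hr i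
  have hsub : rest s v i ⊆ tree s v := by
    rw [ht i]; exact subset_union_left
  refine ⟨?_, (hF.comp j).union r1, union_subset (hF.ball j) (hsub.trans hb), ?_,
    subset_union_left, ?_⟩
  · exact (hF.conn j).union (v j) (hF.vm j) (r4 j hij.symm) r2
  · rw [disjoint_union_right]
    refine ⟨hD.pair i j hij, disjoint_left.2 fun z hz hz' => ?_⟩
    have h1 := hD.tree i ⟨hz, hsub hz'⟩
    rw [mem_singleton_iff] at h1
    rw [h1] at hz'
    exact v_not_rest geo hG i hz'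
  · refine ⟨c i, hG.cpos i, Or.inr ?_⟩
    have h1 := r3 (ft i)
    have h2 := hE.rv i
    rw [hG.vd i, dv, ev_eq_pt, ev_eq_pt] at h2
    have h3 : pt (φ + dl i + th i) - (rr i + c i) • pt (φ + dl i) = s (ft i) := by
      rw [← h2]; module
    rw [h3]
    exact h1

theorem order_aux (geo : NH_GEO) {φ : ℝ} {s : Fin 3 → E 2} {a : Fin 2 → ℝ} {v : Fin 5 → E 2}
    {c : Fin 5 → ℝ} (hG : Geo φ s a v c) {S : Set (E 2)} {K : Fin 5 → Set (E 2)}
    {pp pm : Fin 5 → E 2} (hF : Fam S φ v K pp pm) (hD : Dj s v K) {th rr : Fin 5 → ℝ}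
    (hE : Ex φ v th rr) {i j : Fin 5} (hij : i ≠ j) {g : ℝ}
    (hg : g = (φ + dl j + th j) - (φ + dl i + th i) ∨
      g = (φ + dl j + 2 * π + th j) - (φ + dl i + th i)) (hg0 : 0 < g) (hg1 : g < π) :
    Up th rr i + Um th rr j ≤ g ∧
      dist (pp i) (pm j) ≤ 2 * Real.sin ((g - Up th rr i - Um th rr j) / 2) := by
  have c1 := clu hG hF hE i
  have c2 := clu hG hF hE j
  have H1 := rest_of geo hG hF hD hE hij
  have H2 := rest_of geo hG hF hD hE hij.symm
  have A1 := arm_Uf c1.al c1.r0 c1.rc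
  have A2 := arm_Uf c2.al c2.r0 c2.rc
  have e1 : Up th rr i = Uf (th i) (rr i) := rfl
  have e2 : Um th rr j = Uf (-(th j)) (rr j) := by
    rw [Um, UU, Uf, sub_neg_eq_add]
  rw [e1, e2]
  rcases hg with h | h
  · exact gap_thm c1 c2 h hg0 hg1 (fun _ => ⟨_, H1⟩) (fun _ => ⟨_, H2⟩) A1 A2
  · exact gap_thm c1 c2.shift h hg0 hg1 (fun _ => ⟨_, H1⟩) (fun _ => ⟨_, H2.shift⟩) A1 A2

/-- **row ORDER** -/
theorem order (geo : NH_GEO) : NH_ORDER := by
  intro φ s a v c hG S K pp pm hF hD th rr hE i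
  have hpi := Real.pi_pos
  have t0 := abs_lt.1 (th_lt hG hE 0)
  have t1 := abs_lt.1 (th_lt hG hE 1)
  have t2 := abs_lt.1 (th_lt hG hE 2)
  have t3 := abs_lt.1 (th_lt hG hE 3)
  have t4 := abs_lt.1 (th_lt hG hE 4)
  have t23 := th23 hG hE
  have d0 : dl 0 = 0 := rfl
  have d1 : dl 1 = π / 3 := rfl
  have d2 : dl 2 = π := rfl
  have d3 : dl 3 = π := rfl
  have d4 : dl 4 = 5 * π / 3 := rfl
  have e0 : gap th 0 = π / 3 + th 1 - th 0 := rfl
  have e1 : gap th 1 = 2 * π / 3 + th 2 - th 1 := rfl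
  have e2 : gap th 2 = th 3 - th 2 := rfl
  have e3 : gap th 3 = 2 * π / 3 + th 4 - th 3 := rfl
  have e4 : gap th 4 = π / 3 + th 0 - th 4 := rfl
  have main : ∀ i j : Fin 5, i ≠ j → j = i + 1 →
      (gap th i = (φ + dl j + th j) - (φ + dl i + th i) ∨
        gap th i = (φ + dl j + 2 * π + th j) - (φ + dl i + th i)) → 0 < gap th i → gap th i < π →
      Up th rr i + Um th rr (i + 1) ≤ gap th i ∧ dist (pp i) (pm (i + 1)) ≤ chd th rr i := by
    intro i j hij hj h h0 h1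
    have := order_aux geo hG hF hD hE hij h h0 h1
    rw [hj] at this
    exact this
  fin_cases i
  · refine main 0 1 (by decide) rfl (Or.inl ?_) ?_ ?_
    · rw [e0, d0, d1]; ring
    · rw [e0]; linarith
    · rw [e0]; linarith
  · refine main 1 2 (by decide) rfl (Or.inl ?_) ?_ ?_
    · rw [e1, d1, d2]; ring
    · rw [e1]; linarith
    · rw [e1]; linarith
  · refine main 2 3 (by decide) rfl (Or.inl ?_) ?_ ?_
    · rw [e2, d2, d3]; ring
    · rw [e2]; linarith
    · rw [e2]; linarith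
  · refine main 3 4 (by decide) rfl (Or.inl ?_) ?_ ?_
    · rw [e3, d3, d4]; ring
    · rw [e3]; linarith
    · rw [e3]; linarith
  · refine main 4 0 (by decide) rfl (Or.inr ?_) ?_ ?_
    · rw [e4, d4, d0]; ring
    · rw [e4]; linarith
    · rw [e4]; linarith

end NH
end H11ST
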