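import Pool.Agent.Helper35.NH.CROSS
open MeasureTheory Metric Set Filter Topology Real
open scoped ENNReal NNReal

/-!
Row ORDER: positions of the exits of the clusters on the unit circle.
-/

namespace H11ST
namespace NH

/-- the point of the unit circle at the angle `φ` -/
noncomputable def pt (φ : ℝ) : E 2 := WithLp.toLp 2 ![Real.cos φ, Real.sin φ]

theorem pt0 (φ : ℝ) : pt φ 0 = Real.cos φ := rfl

theorem pt1 (φ : ℝ) : pt φ 1 = Real.sin φ := rfl

theorem nsq (z : E 2) : ‖z‖ ^ 2 = z 0 ^ 2 + z 1 ^ 2 := by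
  rw [EuclideanSpace.norm_eq, Real.sq_sqrt (Finset.sum_nonneg fun i _ => sq_nonneg _),
    Fin.sum_univ_two]
  simp

theorem pt_norm (φ : ℝ) : ‖pt φ‖ = 1 := by
  have h := nsq (pt φ)
  rw [pt0, pt1, Real.cos_sq_add_sin_sq] at h
  have h0 := norm_nonneg (pt φ)
  nlinarith

theorem exists_pt {p : E 2} (hp : ‖p‖ = 1) (c : ℝ) : ∃ u : ℝ, 0 ≤ u ∧ u < 2 * π ∧ p = pt (c + u) := by
  have h := nsq p
  rw [hp] at h
  obtain ⟨θ, h1, h2⟩ : ∃ θ : ℝ, Real.cos θ = p 0 ∧ Real.sin θ = p 1 := by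
    set z : ℂ := ⟨p 0, p 1⟩ with hz
    have hn : ‖z‖ = 1 := by
      rw [Complex.norm_def, Complex.normSq_mk]
      have : p 0 * p 0 + p 1 * p 1 = 1 := by nlinarith
      rw [this, Real.sqrt_one]
    have hz0 : z ≠ 0 := by
      intro h0
      rw [h0, norm_zero] at hn
      norm_num at hn
    refine ⟨z.arg, ?_, ?_⟩
    · rw [Complex.cos_arg hz0, hn, div_one]
    · rw [Complex.sin_arg, hn, div_one]
  have hpp : (0 : ℝ) < 2 * π := by positivity
  refine ⟨toIcoMod hpp 0 (θ - c), ?_, ?_, ?_⟩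
  · exact (toIcoMod_mem_Ico hpp 0 (θ - c)).1
  · have := (toIcoMod_mem_Ico hpp 0 (θ - c)).2
    linarith
  · have h3 : toIcoMod hpp 0 (θ - c) = θ - c - toIcoDiv hpp 0 (θ - c) • (2 * π) := rfl
    have h4 : c + toIcoMod hpp 0 (θ - c) = θ - (toIcoDiv hpp 0 (θ - c) : ℝ) * (2 * π) := by
      rw [h3, zsmul_eq_mul]; ring
    ext i
    fin_cases i
    · change p 0 = Real.cos (c + toIcoMod hpp 0 (θ - c))
      rw [h4, Real.cos_sub_int_mul_two_pi, h1]
    · change p 1 = Real.sin (c + toIcoMod hpp 0 (θ - c))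
      rw [h4, Real.sin_sub_int_mul_two_pi, h2]

theorem cr_pt (a b : ℝ) : cr (pt a) (pt b) = Real.sin (b - a) := by
  rw [cr, pt0, pt0, pt1, pt1, Real.sin_sub]
  ring

theorem cr_sub_left (a b c : E 2) : cr (a - b) c = cr a c - cr b c := by
  have h0 : (a - b) 0 = a 0 - b 0 := rfl
  have h1 : (a - b) 1 = a 1 - b 1 := rfl
  rw [cr, cr, cr, h0, h1]
  ring

theorem cr_sub_right (a b c : E 2) : cr a (b - c) = cr a b - cr a c := by
  have h0 : (b - c) 0 = b 0 - c 0 := rfl
  have h1 : (b - c) 1 = b 1 - c 1 := rfl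
  rw [cr, cr, cr, h0, h1]
  ring

theorem cr_add_left (a b c : E 2) : cr (a + b) c = cr a c + cr b c := by
  have h0 : (a + b) 0 = a 0 + b 0 := rfl
  have h1 : (a + b) 1 = a 1 + b 1 := rfl
  rw [cr, cr, cr, h0, h1]
  ring

theorem cr_add_right (a b c : E 2) : cr a (b + c) = cr a b + cr a c := by
  have h0 : (b + c) 0 = b 0 + c 0 := rfl
  have h1 : (b + c) 1 = b 1 + c 1 := rfl
  rw [cr, cr, cr, h0, h1]
  ring

theorem cr_smul_left (s : ℝ) (a b : E 2) : cr (s • a) b = s * cr a b := by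
  have h0 : (s • a) 0 = s * a 0 := rfl
  have h1 : (s • a) 1 = s * a 1 := rfl
  rw [cr, cr, h0, h1]
  ring

theorem cr_smul_right (s : ℝ) (a b : E 2) : cr a (s • b) = s * cr a b := by
  have h0 : (s • b) 0 = s * b 0 := rfl
  have h1 : (s • b) 1 = s * b 1 := rfl
  rw [cr, cr, h0, h1]
  ring

theorem cr_self (a : E 2) : cr a a = 0 := by
  rw [cr]; ring

/-- orientation of three points of the circle -/
theorem cr_pt3 (a b c : ℝ) : cr (pt b - pt a) (pt c - pt a) =
    4 * Real.sin ((b - a) / 2) * Real.sin ((c - b) / 2) * Real.sin ((c - a) / 2) := by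
  have e1 : c - a = (c - b) / 2 + (b - a) / 2 + ((c - b) / 2 + (b - a) / 2) := by ring
  have e2 : c - b = (c - b) / 2 + (c - b) / 2 := by ring
  have e3 : b - a = (b - a) / 2 + (b - a) / 2 := by ring
  have e4 : (c - a) / 2 = (c - b) / 2 + (b - a) / 2 := by ring
  have h : cr (pt b - pt a) (pt c - pt a) = Real.sin (c - b) + Real.sin (b - a) -
      Real.sin (c - a) := by
    rw [cr_sub_left, cr_sub_right, cr_sub_right, cr_pt, cr_pt, cr_pt, cr_pt, sub_self,
      Real.sin_zero]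
    have : a - b = -(b - a) := by ring
    rw [this, Real.sin_neg]
    ring
  rw [h, e4]
  set x := (c - b) / 2 with hx
  set y := (b - a) / 2 with hy
  rw [e1, e2, e3]
  have hs := Real.sin_sq_add_cos_sq x
  have ht := Real.sin_sq_add_cos_sq y
  simp only [Real.sin_add, Real.cos_add]
  linear_combination (2 * Real.sin y * Real.cos y) * (-hs) + (2 * Real.sin x * Real.cos x) * (-ht)

theorem pt_add_pi (φ : ℝ) : pt (φ + π) = -pt φ := by
  ext i
  fin_cases i
  · change Real.cos (φ + π) = -Real.cos φ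
    exact Real.cos_add_pi φ
  · change Real.sin (φ + π) = -Real.sin φ
    exact Real.sin_add_pi φ

/-- the second intersection of the line through `pt (δ + α)` of direction `pt δ` -/
theorem pt_op (δ α : ℝ) : pt (δ + (π - α)) = pt (δ + α) - (2 * Real.cos α) • pt δ := by
  ext i
  fin_cases i
  · change Real.cos (δ + (π - α)) = Real.cos (δ + α) - (2 * Real.cos α) * Real.cos δ
    have : δ + (π - α) = (δ - α) + π := by ring
    rw [this, Real.cos_add_pi, Real.cos_sub, Real.cos_add]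
    ring
  · change Real.sin (δ + (π - α)) = Real.sin (δ + α) - (2 * Real.cos α) * Real.sin δ
    have : δ + (π - α) = (δ - α) + π := by ring
    rw [this, Real.sin_add_pi, Real.sin_sub, Real.sin_add]
    ring

/-- scalar form of the position of an exit -/
theorem ang_scalar {α r u w : ℝ} (ha : |α| ≤ π / 6) (hr : r ≤ Real.cos α) (hu0 : 0 ≤ u)
    (hu1 : u < 2 * π) (hw1 : -(π / 2) ≤ w) (hw2 : w ≤ π / 2)
    (hw : Real.sin w = Real.sin (π / 3 - α) - √3 / 2 * r)
    (hA : 0 < Real.sin (α + u) - Real.sin α)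
    (hB : 0 ≤ Real.sin (2 * π / 3 - α - u) - Real.sin (2 * π / 3 - α) + √3 / 2 * r)
    (hC : Real.sin (π / 3 - α - u) ≤ Real.sin (π / 3 - α) - √3 / 2 * r) :
    0 < u ∧ u < π ∧ u < π - 2 * α ∧ π / 3 - α - w ≤ u := by
  have hpi := Real.pi_pos
  obtain ⟨ha1, ha2⟩ := abs_le.1 ha
  have h1 : Real.sin (α + u) - Real.sin α = 2 * Real.sin (u / 2) * Real.cos (α + u / 2) := by
    rw [Real.sin_sub_sin]
    congr 2 <;> ring_nf
  rw [h1] at hA
  have hs0 : 0 ≤ Real.sin (u / 2) := Real.sin_nonneg_of_nonneg_of_le_pi (by linarith) (by linarith)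
  have hs1 : 0 < Real.sin (u / 2) := by
    rcases hs0.lt_or_eq with h | h
    · exact h
    · rw [← h] at hA
      simp at hA
  have hu : 0 < u := by
    rcases hu0.lt_or_eq with h | h
    · exact h
    · rw [← h] at hs1
      simp at hs1
  have hc : 0 < Real.cos (α + u / 2) := by
    by_contra hcon
    push Not at hcon
    nlinarith
  have hlt : α + u / 2 < π / 2 := by
    by_contra hcon
    push Not at hcon
    have : Real.cos (α + u / 2) ≤ 0 := Real.cos_nonpos_of_pi_div_two_le_of_le hcon (by linarith)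
    linarith
  have hu3 : u < π - 2 * α := by linarith
  have hu2 : u < π := by
    by_contra hcon
    push Not at hcon
    -- `x = u + α - 2π/3`
    have e1 : Real.sin (2 * π / 3 - α - u) = -Real.sin (u + α - 2 * π / 3) := by
      rw [← Real.sin_neg]; congr 1; ring
    have e2 : Real.sin (2 * π / 3 - α) = Real.sin (π / 3 + α) := by
      rw [← Real.sin_pi_sub]; congr 1; ring
    have h5 : Real.sin (π / 3 + α) ≤ Real.sin (u + α - 2 * π / 3) :=
      Real.sin_le_sin_of_le_of_le_pi_div_two (by linarith) (by linarith) (by linarith)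
    rw [e1, e2] at hB
    have h6 : Real.sin (π / 3 + α) = √3 / 2 * Real.cos α + 1 / 2 * Real.sin α := by
      rw [Real.sin_add, Real.sin_pi_div_three, Real.cos_pi_div_three]
    have h7 : -(1 / 2 : ℝ) ≤ Real.sin α := by
      have : Real.sin (-(π / 6)) ≤ Real.sin α :=
        Real.sin_le_sin_of_le_of_le_pi_div_two (by linarith) (by linarith) ha1
      rwa [Real.sin_neg, Real.sin_pi_div_six] at this
    have h8 : √3 / 2 ≤ Real.cos α := by
      have : Real.cos (π / 6) ≤ Real.cos α := by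
        rw [← Real.cos_abs α]
        exact Real.cos_le_cos_of_nonneg_of_le_pi (abs_nonneg _) (by linarith) ha
      rwa [Real.cos_pi_div_six] at this
    have h9 : (√3) ^ 2 = 3 := Real.sq_sqrt (by norm_num)
    have h10 : 0 < √3 := by positivity
    have h11 : √3 / 2 * r ≤ √3 / 2 * Real.cos α := by
      apply mul_le_mul_of_nonneg_left hr (by positivity)
    nlinarith
  refine ⟨hu, hu2, hu3, ?_⟩
  by_contra hcon
  push Not at hcon
  rw [← hw] at hC
  have : Real.sin w < Real.sin (π / 3 - α - u) :=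
    Real.sin_lt_sin_of_lt_of_le_pi_div_two hw1 (by linarith) (by linarith)
  linarith

/-- position of the exit of the left path -/
theorem ang_plus {δ α r w : ℝ} {p : E 2} (ha : |α| ≤ π / 6) (hr : r ≤ Real.cos α)
    (hv : ‖pt (δ + α) - r • pt δ‖ < 1) (hp : ‖p‖ = 1) (hw1 : -(π / 2) ≤ w) (hw2 : w ≤ π / 2)
    (hw : Real.sin w = Real.sin (π / 3 - α) - √3 / 2 * r) {a b : ℝ} (ha0 : 0 ≤ a) (hb0 : 0 ≤ b)
    (hpv : p = pt (δ + α) - r • pt δ + a • pt (δ + π / 3) + b • pt (δ + 2 * π / 3)) :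
    ∃ u, 0 < u ∧ u < π ∧ u < π - 2 * α ∧ π / 3 - α - w ≤ u ∧ p = pt (δ + α + u) := by
  obtain ⟨u, hu0, hu1, hpu⟩ := exists_pt hp (δ + α)
  have hab : 0 < a + b := by
    rcases (add_nonneg ha0 hb0).lt_or_eq with h | h
    · exact h
    · exfalso
      have h1 : a = 0 := by linarith
      have h2 : b = 0 := by linarith
      rw [h1, h2, zero_smul, zero_smul, add_zero, add_zero] at hpv
      rw [← hpv, hp] at hv
      exact lt_irrefl _ hv
  have hs3 : 0 < √3 := by positivity
  have hs2 : Real.sin (2 * π / 3) = √3 / 2 := by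
    have : (2 * π / 3 : ℝ) = π - π / 3 := by ring
    rw [this, Real.sin_pi_sub, Real.sin_pi_div_three]
  -- the difference
  have hd : pt (δ + α + u) = pt (δ + α) - r • pt δ + a • pt (δ + π / 3) +
      b • pt (δ + 2 * π / 3) := by rw [← hpu]; exact hpv
  have c1 := congrArg (fun z => cr (pt δ) z) hd
  have c2 := congrArg (fun z => cr z (pt (δ + 2 * π / 3))) hd
  have c3 := congrArg (fun z => cr (pt (δ + π / 3)) z) hd
  simp only [cr_add_left, cr_add_right, cr_sub_left, cr_sub_right, cr_smul_left, cr_smul_right,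
    cr_pt] at c1 c2 c3
  have e1 : δ + α + u - δ = α + u := by ring
  have e2 : δ + α - δ = α := by ring
  have e3 : δ - δ = 0 := by ring
  have e4 : δ + π / 3 - δ = π / 3 := by ring
  have e5 : δ + 2 * π / 3 - δ = 2 * π / 3 := by ring
  rw [e1, e2, e3, e4, e5, Real.sin_zero, Real.sin_pi_div_three, hs2] at c1
  have f1 : δ + 2 * π / 3 - (δ + α + u) = 2 * π / 3 - α - u := by ring
  have f2 : δ + 2 * π / 3 - (δ + α) = 2 * π / 3 - α := by ring
  have f3 : δ + 2 * π / 3 - δ = 2 * π / 3 := by ring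
  have f4 : δ + 2 * π / 3 - (δ + π / 3) = π / 3 := by ring
  have f5 : δ + 2 * π / 3 - (δ + 2 * π / 3) = 0 := by ring
  rw [f1, f2, f3, f4, f5, Real.sin_zero, Real.sin_pi_div_three, hs2] at c2
  have g1 : δ + α + u - (δ + π / 3) = -(π / 3 - α - u) := by ring
  have g2 : δ + α - (δ + π / 3) = -(π / 3 - α) := by ring
  have g3 : δ - (δ + π / 3) = -(π / 3) := by ring
  have g4 : δ + π / 3 - (δ + π / 3) = 0 := by ring
  rw [g1, g2, g3, g4, f4, Real.sin_zero, Real.sin_neg, Real.sin_neg, Real.sin_neg,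
    Real.sin_pi_div_three] at c3
  obtain ⟨h1, h2, h3, h4⟩ := ang_scalar (u := u) ha hr hu0 hu1 hw1 hw2 hw
    (by nlinarith) (by nlinarith) (by nlinarith)
  exact ⟨u, h1, h2, h3, h4, hpu⟩

/-- position of the exit of the right path -/
theorem ang_minus {δ α r w : ℝ} {p : E 2} (ha : |α| ≤ π / 6) (hr : r ≤ Real.cos α)
    (hv : ‖pt (δ + α) - r • pt δ‖ < 1) (hp : ‖p‖ = 1) (hw1 : -(π / 2) ≤ w) (hw2 : w ≤ π / 2)
    (hw : Real.sin w = Real.sin (π / 3 + α) - √3 / 2 * r) {a b : ℝ} (ha0 : 0 ≤ a) (hb0 : 0 ≤ b)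
    (hpv : p = pt (δ + α) - r • pt δ + a • pt (δ - π / 3) + b • pt (δ - 2 * π / 3)) :
    ∃ u, 0 < u ∧ u < π ∧ u < π + 2 * α ∧ π / 3 + α - w ≤ u ∧ p = pt (δ + α - u) := by
  obtain ⟨u', hu0', hu1', hpu'⟩ := exists_pt hp (δ + α)
  -- `u = 2π - u'` or `0`
  obtain ⟨u, hu0, hu1, hpu⟩ : ∃ u : ℝ, 0 ≤ u ∧ u < 2 * π ∧ p = pt (δ + α - u) := by
    rcases hu0'.lt_or_eq with h | h
    · refine ⟨2 * π - u', by linarith, by linarith, ?_⟩
      rw [hpu']
      have : δ + α - (2 * π - u') = δ + α + u' - 2 * π := by ring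
      ext i
      fin_cases i
      · change Real.cos (δ + α + u') = Real.cos (δ + α - (2 * π - u'))
        rw [this, Real.cos_sub_two_pi]
      · change Real.sin (δ + α + u') = Real.sin (δ + α - (2 * π - u'))
        rw [this, Real.sin_sub_two_pi]
    · refine ⟨0, le_rfl, by positivity, ?_⟩
      rw [hpu', ← h, add_zero, sub_zero]
  have hab : 0 < a + b := by
    rcases (add_nonneg ha0 hb0).lt_or_eq with h | h
    · exact h
    · exfalso
      have h1 : a = 0 := by linarith
      have h2 : b = 0 := by linarith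
      rw [h1, h2, zero_smul, zero_smul, add_zero, add_zero] at hpv
      rw [← hpv, hp] at hv
      exact lt_irrefl _ hv
  have hs3 : 0 < √3 := by positivity
  have hs2 : Real.sin (2 * π / 3) = √3 / 2 := by
    have : (2 * π / 3 : ℝ) = π - π / 3 := by ring
    rw [this, Real.sin_pi_sub, Real.sin_pi_div_three]
  have hd : pt (δ + α - u) = pt (δ + α) - r • pt δ + a • pt (δ - π / 3) +
      b • pt (δ - 2 * π / 3) := by rw [← hpu]; exact hpv
  have c1 := congrArg (fun z => cr z (pt δ)) hd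
  have c2 := congrArg (fun z => cr (pt (δ - 2 * π / 3)) z) hd
  have c3 := congrArg (fun z => cr z (pt (δ - π / 3))) hd
  simp only [cr_add_left, cr_add_right, cr_sub_left, cr_sub_right, cr_smul_left, cr_smul_right,
    cr_pt] at c1 c2 c3
  have e1 : δ - (δ + α - u) = -α + u := by ring
  have e2 : δ - (δ + α) = -α := by ring
  have e3 : δ - δ = 0 := by ring
  have e4 : δ - (δ - π / 3) = π / 3 := by ring
  have e5 : δ - (δ - 2 * π / 3) = 2 * π / 3 := by ring
  rw [e1, e2, e3, e4, e5, Real.sin_zero, Real.sin_pi_div_three, hs2] at c1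
  have f1 : δ + α - u - (δ - 2 * π / 3) = 2 * π / 3 - -α - u := by ring
  have f2 : δ + α - (δ - 2 * π / 3) = 2 * π / 3 - -α := by ring
  have f4 : δ - π / 3 - (δ - 2 * π / 3) = π / 3 := by ring
  have f5 : δ - 2 * π / 3 - (δ - 2 * π / 3) = 0 := by ring
  rw [f1, f2, e5, f4, f5, Real.sin_zero, Real.sin_pi_div_three, hs2] at c2
  have g1 : δ - π / 3 - (δ + α - u) = -(π / 3 - -α - u) := by ring
  have g2 : δ - π / 3 - (δ + α) = -(π / 3 - -α) := by ring
  have g3 : δ - π / 3 - δ = -(π / 3) := by ring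
  have g4 : δ - π / 3 - (δ - π / 3) = 0 := by ring
  have g5 : δ - π / 3 - (δ - 2 * π / 3) = π / 3 := by ring
  rw [g1, g2, g3, g4, g5, Real.sin_zero, Real.sin_neg, Real.sin_neg, Real.sin_neg,
    Real.sin_pi_div_three] at c3
  have hw' : Real.sin w = Real.sin (π / 3 - -α) - √3 / 2 * r := by rw [hw]; congr 2; ring
  obtain ⟨h1, h2, h3, h4⟩ := ang_scalar (α := -α) (u := u) (by rwa [abs_neg])
    (by rwa [Real.cos_neg]) hu0 hu1 hw1 hw2 hw'
    (by nlinarith) (by nlinarith) (by nlinarith)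
  exact ⟨u, h1, h2, by linarith, by linarith, hpu⟩

/-- the other exits lie on the other side of the chord of a cluster -/
theorem good {K Z : Set (E 2)} (hK : IsPreconnected K) (hZ : IsPreconnected Z)
    (cK : IsCompact K) (cZ : IsCompact Z) (bK : K ⊆ closedBall 0 1) (bZ : Z ⊆ closedBall 0 1)
    (hd : Disjoint K Z) {δ α r ε u w : ℝ} (ha : |α| ≤ π / 6) (hr0 : 0 < r)
    (hr : r ≤ Real.cos α)
    (hbk : ∀ s : ℝ, 0 < s → pt (δ + α) - (r + s) • pt δ ∉ K) (hε : 0 < ε)
    (hεr : r + ε ≤ 2 * Real.cos α) (hZε : pt (δ + α) - (r + ε) • pt δ ∈ Z)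
    (hu0 : 0 < u) (hu1 : u < π) (hu2 : u < π - 2 * α) (hw0 : 0 < w) (hw1 : w < π)
    (hw2 : w < π + 2 * α) (hpu : pt (δ + α + u) ∈ K) (hpw : pt (δ + α - w) ∈ K) :
    ∀ y : ℝ, pt (δ + α + y) ∈ Z → 0 < Real.sin ((y - u) / 2) * Real.sin ((y + w) / 2) := by
  intro y hy
  have hpi := Real.pi_pos
  obtain ⟨ha1, ha2⟩ := abs_le.1 ha
  set L : Set (E 2) := segment ℝ (pt (δ + α) - (r + ε) • pt δ) (pt (δ + (π - α))) with hL
  have hcosp : 0 < Real.cos α := Real.cos_pos_of_mem_Ioo ⟨by linarith, by linarith⟩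
  have hin : pt (δ + α) - (r + ε) • pt δ ∈ closedBall (0 : E 2) 1 := bZ hZε
  have hLmem : ∀ z ∈ L, ∃ s : ℝ, 0 < s ∧ z = pt (δ + α) - (r + s) • pt δ := by
    rintro z ⟨a, b, ha', hb', hab, rfl⟩
    refine ⟨a * ε + b * (2 * Real.cos α - r), ?_, ?_⟩
    · have h1 : 0 < 2 * Real.cos α - r := by linarith
      rcases ha'.lt_or_eq with h | h
      · have := mul_pos h hε
        have := mul_nonneg hb' h1.le
        linarith
      · have hb1 : b = 1 := by linarith
        rw [← h, hb1]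
        linarith
    · rw [pt_op]
      have hb : b = 1 - a := by linarith
      rw [hb]
      module
  set Z' : Set (E 2) := Z ∪ L with hZ'
  have pZ' : IsPreconnected Z' :=
    hZ.union _ hZε (left_mem_segment ℝ _ _) (convex_segment _ _).isPreconnected
  have cZ' : IsCompact Z' := by
    refine cZ.union ?_
    rw [hL, ← convexHull_pair]
    exact (Set.toFinite _).isCompact_convexHull ℝ
  have bZ' : Z' ⊆ closedBall 0 1 := by
    refine union_subset bZ ?_
    refine (convex_closedBall (0 : E 2) 1).segment_subset hin ?_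
    rw [mem_closedBall_zero_iff, pt_norm]
  have hd' : Disjoint K Z' := by
    rw [hZ', disjoint_union_right]
    refine ⟨hd, disjoint_left.2 fun z hz hzL => ?_⟩
    obtain ⟨s, hs, rfl⟩ := hLmem z hzL
    exact hbk s hs hz
  have hs1 : 0 < Real.sin ((u + w) / 2) :=
    Real.sin_pos_of_pos_of_lt_pi (by linarith) (by linarith)
  have hne : pt (δ + α - w) ≠ pt (δ + α + u) := by
    intro h
    have h1 := cr_pt3 (δ + α - w) (δ + α + u) (δ + (π - α))
    rw [h, sub_self] at h1
    have h0 : cr (0 : E 2) (pt (δ + (π - α)) - pt (δ + α + u)) = 0 := by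
      have e0 : (0 : E 2) 0 = 0 := rfl
      have e1 : (0 : E 2) 1 = 0 := rfl
      rw [cr, e0, e1]; ring
    rw [h0] at h1
    have e1 : (δ + α + u - (δ + α - w)) / 2 = (u + w) / 2 := by ring
    have e2 : (δ + (π - α) - (δ + α + u)) / 2 = (π - 2 * α - u) / 2 := by ring
    have e3 : (δ + (π - α) - (δ + α - w)) / 2 = (π - 2 * α + w) / 2 := by ring
    rw [e1, e2, e3] at h1
    have h2 : 0 < Real.sin ((π - 2 * α - u) / 2) :=
      Real.sin_pos_of_pos_of_lt_pi (by linarith) (by linarith)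
    have h3 : 0 < Real.sin ((π - 2 * α + w) / 2) :=
      Real.sin_pos_of_pos_of_lt_pi (by linarith) (by linarith)
    have := mul_pos (mul_pos (mul_pos (by norm_num : (0 : ℝ) < 4) hs1) h2) h3
    linarith
  have hcr := cross hK pZ' cK cZ' bK bZ' hd' (x1 := pt (δ + α - w)) (x2 := pt (δ + α + u))
    (z1 := pt (δ + α + y)) (z2 := pt (δ + (π - α))) hpw hpu (Or.inl hy)
    (Or.inr (right_mem_segment ℝ _ _)) (pt_norm _) (pt_norm _) (pt_norm _) (pt_norm _) hne
  rw [cr_pt3, cr_pt3] at hcr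
  have e1 : (δ + α + u - (δ + α - w)) / 2 = (u + w) / 2 := by ring
  have e2 : (δ + (π - α) - (δ + α + u)) / 2 = (π - 2 * α - u) / 2 := by ring
  have e3 : (δ + (π - α) - (δ + α - w)) / 2 = (π - 2 * α + w) / 2 := by ring
  have e4 : (δ + α + y - (δ + α + u)) / 2 = (y - u) / 2 := by ring
  have e5 : (δ + α + y - (δ + α - w)) / 2 = (y + w) / 2 := by ring
  rw [e1, e2, e3, e4, e5] at hcr
  have h2 : 0 < Real.sin ((π - 2 * α - u) / 2) :=
    Real.sin_pos_of_pos_of_lt_pi (by linarith) (by linarith)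
  have h3 : 0 < Real.sin ((π - 2 * α + w) / 2) :=
    Real.sin_pos_of_pos_of_lt_pi (by linarith) (by linarith)
  have h4 : 0 < 16 * Real.sin ((u + w) / 2) ^ 2 * Real.sin ((π - 2 * α - u) / 2) *
      Real.sin ((π - 2 * α + w) / 2) := by positivity
  have h5 : 4 * Real.sin ((u + w) / 2) * Real.sin ((y - u) / 2) * Real.sin ((y + w) / 2) *
      (4 * Real.sin ((u + w) / 2) * Real.sin ((π - 2 * α - u) / 2) *
        Real.sin ((π - 2 * α + w) / 2)) =
      (16 * Real.sin ((u + w) / 2) ^ 2 * Real.sin ((π - 2 * α - u) / 2) *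
        Real.sin ((π - 2 * α + w) / 2)) * (Real.sin ((y - u) / 2) * Real.sin ((y + w) / 2)) := by
    ring
  rw [h5] at hcr
  exact (mul_pos_iff_of_pos_left h4).1 hcr

/-- order of the exits of two neighbouring clusters -/
theorem order_ee {g u w u' w' : ℝ} (hg0 : 0 < g) (hg1 : g < π) (hu0 : 0 < u) (hu1 : u < π)
    (hw0 : 0 < w) (hw1 : w < π) (hu0' : 0 < u') (hu1' : u' < π) (hw0' : 0 < w') (hw1' : w' < π)
    (F1 : 0 < Real.sin ((g - w' - u) / 2) * Real.sin ((g - w' + w) / 2))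
    (F2 : 0 < Real.sin ((g + u' - u) / 2) * Real.sin ((g + u' + w) / 2))
    (F3 : 0 < Real.sin ((-g + u - u') / 2) * Real.sin ((-g + u + w') / 2)) : u + w' < g := by
  by_contra hcon
  push Not at hcon
  have hpi := Real.pi_pos
  have h1 : Real.sin ((g - w' - u) / 2) ≤ 0 :=
    Real.sin_nonpos_of_nonpos_of_neg_pi_le (by linarith) (by linarith)
  have h1' : Real.sin ((g - w' - u) / 2) < 0 := by
    rcases h1.lt_or_eq with h | h
    · exact h
    · rw [h, zero_mul] at F1
      exact absurd F1 (lt_irrefl _)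
  have h3 : Real.sin ((-g + u + w') / 2) = -Real.sin ((g - w' - u) / 2) := by
    rw [← Real.sin_neg]; congr 1; ring
  have h4 : 0 < Real.sin ((-g + u - u') / 2) := by
    rw [h3] at F3
    by_contra hc
    push Not at hc
    nlinarith
  have h5 : g + u' < u := by
    by_contra hc
    push Not at hc
    have : Real.sin ((-g + u - u') / 2) ≤ 0 :=
      Real.sin_nonpos_of_nonpos_of_neg_pi_le (by linarith) (by linarith)
    linarith
  have h6 : Real.sin ((g + u' - u) / 2) < 0 :=
    Real.sin_neg_of_neg_of_neg_pi_lt (by linarith) (by linarith)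
  have h7 : 0 < Real.sin ((g + u' + w) / 2) :=
    Real.sin_pos_of_pos_of_lt_pi (by linarith) (by linarith)
  nlinarith

/-- order of the exits: the second arm has no tripod -/
theorem order_en {g u w : ℝ} (hg0 : 0 < g) (hg1 : g < π) (hu1 : u < π)
    (hw0 : 0 < w) (hw1 : w < π)
    (F1 : 0 < Real.sin ((g - u) / 2) * Real.sin ((g + w) / 2)) : u < g := by
  by_contra hcon
  push Not at hcon
  have hpi := Real.pi_pos
  have h1 : Real.sin ((g - u) / 2) ≤ 0 :=
    Real.sin_nonpos_of_nonpos_of_neg_pi_le (by linarith) (by linarith)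
  have h7 : 0 < Real.sin ((g + w) / 2) :=
    Real.sin_pos_of_pos_of_lt_pi (by linarith) (by linarith)
  nlinarith

/-- order of the exits: the first arm has no tripod -/
theorem order_ne {g u' w' : ℝ} (hg0 : 0 < g) (hg1 : g < π) (hu0' : 0 < u') (hu1' : u' < π)
    (hw1' : w' < π)
    (F3 : 0 < Real.sin ((-g - u') / 2) * Real.sin ((-g + w') / 2)) : w' < g := by
  by_contra hcon
  push Not at hcon
  have hpi := Real.pi_pos
  have h1 : 0 ≤ Real.sin ((-g + w') / 2) :=
    Real.sin_nonneg_of_nonneg_of_le_pi (by linarith) (by linarith)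
  have h7 : Real.sin ((-g - u') / 2) < 0 :=
    Real.sin_neg_of_neg_of_neg_pi_lt (by linarith) (by linarith)
  nlinarith

/-- length of a chord -/
theorem dist_pt {a b : ℝ} (h0 : a ≤ b) (h1 : b - a ≤ 2 * π) :
    dist (pt a) (pt b) = 2 * Real.sin ((b - a) / 2) := by
  have hs : 0 ≤ Real.sin ((b - a) / 2) :=
    Real.sin_nonneg_of_nonneg_of_le_pi (by linarith) (by linarith)
  have h : ‖pt a - pt b‖ ^ 2 = (2 * Real.sin ((b - a) / 2)) ^ 2 := by
    rw [nsq]
    have e0 : (pt a - pt b) 0 = Real.cos a - Real.cos b := rfl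
    have e1 : (pt a - pt b) 1 = Real.sin a - Real.sin b := rfl
    rw [e0, e1]
    have hc : Real.cos (b - a) = 1 - 2 * Real.sin ((b - a) / 2) ^ 2 := by
      have := Real.cos_two_mul ((b - a) / 2)
      have h2 : 2 * ((b - a) / 2) = b - a := by ring
      rw [h2] at this
      have h3 := Real.sin_sq_add_cos_sq ((b - a) / 2)
      linarith
    rw [Real.cos_sub] at hc
    have h3 := Real.sin_sq_add_cos_sq a
    have h4 := Real.sin_sq_add_cos_sq b
    nlinarith
  rw [dist_eq_norm]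
  exact (pow_left_inj₀ (norm_nonneg _) (by positivity) (by norm_num)).1 h

/-- a shorter arc has a shorter chord -/
theorem chord_mono {x y : ℝ} (h0 : 0 ≤ x) (h1 : x ≤ y) (h2 : y ≤ π) :
    2 * Real.sin (x / 2) ≤ 2 * Real.sin (y / 2) := by
  have hpi := Real.pi_pos
  have := Real.sin_le_sin_of_le_of_le_pi_div_two (x := x / 2) (y := y / 2) (by linarith)
    (by linarith) (by linarith)
  linarith

end NH
end H11ST
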