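import Pool.Agent.Helper11.NH.Sheet
import Pool.Agent.Helper94.PU.Step
import Pool.Agent.Helper35.NH.ORDER
open MeasureTheory Metric Set Filter Topology Real
open scoped ENNReal NNReal

/-!
Arms of tripod points up to the first tripod point or the unit circle.
-/

namespace H11ST
namespace NH

/-- tripod point -/
def TP (S : Set (E 2)) (z : E 2) : Prop := ∃ u ε, Tri S z u ε

/-- the tripod point `z` has an arm of direction `e` -/
def HA (S : Set (E 2)) (z e : E 2) : Prop := ∃ u ε, Tri S z u ε ∧ ∃ j, u j = e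

theorem HA.tp {S : Set (E 2)} {z e : E 2} (h : HA S z e) : TP S z := by
  obtain ⟨u, ε, hT, -⟩ := h
  exact ⟨u, ε, hT⟩

theorem TP.mem {S : Set (E 2)} {z : E 2} (h : TP S z) : z ∈ S := by
  obtain ⟨u, ε, hT⟩ := h
  exact hT.y_mem

theorem HA.unit {S : Set (E 2)} {z e : E 2} (h : HA S z e) : ‖e‖ = 1 := by
  obtain ⟨u, ε, hT, j, rfl⟩ := h
  exact hT.norm j

theorem tp_not_lin {S : Set (E 2)} {z w : E 2} {ε : ℝ} (h : TP S z) (h' : Lin S z w ε) : False := by
  obtain ⟨u, ε', hT⟩ := h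
  exact lin_not_tri h' hT

/-- directions do not depend on the choice -/
theorem dir_of {S : Set (E 2)} {z e : E 2} {u : Fin 3 → E 2} {ε δ : ℝ} (hT : Tri S z u ε)
    (he : ‖e‖ = 1) (h0 : 0 < δ) (hm : ∀ s : ℝ, 0 < s → s < δ → z + s • e ∈ S) : ∃ j, u j = e := by
  set r := min δ ε / 2 with hr
  have hr0 : 0 < r := by
    have := lt_min h0 hT.pos
    rw [hr]; linarith
  have hr1 : r < δ := by
    have := min_le_left δ ε
    rw [hr]; linarith
  have hr2 : r < ε := by
    have := min_le_right δ ε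
    have := hT.pos
    rw [hr]; linarith
  have h4 : z + r • e ∈ S ∩ ball z ε := by
    refine ⟨hm r hr0 hr1, ?_⟩
    rw [mem_ball, dist_eq_norm]
    simp only [add_sub_cancel_left, norm_smul, he, Real.norm_eq_abs, mul_one, abs_of_pos hr0]
    exact hr2
  rw [hT.eq] at h4
  obtain ⟨i, t, ht0, _, ht⟩ := h4
  refine ⟨i, ?_⟩
  have h5 : r • e = t • u i := add_left_cancel ht
  have h6 : r = t := by
    have := congrArg norm h5
    rw [norm_smul, norm_smul, he, hT.norm i, Real.norm_eq_abs, Real.norm_eq_abs,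
      abs_of_pos hr0, abs_of_nonneg ht0, mul_one, mul_one] at this
    exact this
  rw [← h6] at h5
  exact (smul_right_injective _ hr0.ne' h5).symm

theorem HA.in {S : Set (E 2)} {z e : E 2} {u : Fin 3 → E 2} {ε : ℝ} (h : HA S z e)
    (hT : Tri S z u ε) : ∃ j, u j = e := by
  have he := h.unit
  obtain ⟨u', ε', hT', j', rfl⟩ := h
  exact dir_of hT he hT'.pos fun s hs0 hs1 => hT'.mem hs0.le hs1

theorem tri_inj {S : Set (E 2)} {z : E 2} {u : Fin 3 → E 2} {ε : ℝ} (hT : Tri S z u ε) {i j : Fin 3}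
    (h : u i = u j) : i = j := by
  by_contra hij
  have h1 := hT.ang i j hij
  rw [h, real_inner_self_eq_norm_sq, hT.norm j] at h1
  norm_num at h1

/-- an arm from `y` of direction `e` and length `t` -/
structure AE (S : Set (E 2)) (y e : E 2) (t : ℝ) : Prop where
  pos : 0 < t
  le : ‖y + t • e‖ ≤ 1
  ray : ∀ s, 0 < s → s < t → ∃ ε, Lin S (y + s • e) e ε
  fin : ‖y + t • e‖ = 1 ∨ HA S (y + t • e) (-e)

theorem line_le {y e : E 2} {s s' b : ℝ} (hy : ‖y‖ ≤ b) (hs : ‖y + s • e‖ ≤ b) (h0 : 0 ≤ s')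
    (h1 : s' ≤ s) : ‖y + s' • e‖ ≤ b := by
  rcases eq_or_lt_of_le (h0.trans h1) with h | h
  · have : s' = s := le_antisymm h1 (by linarith)
    rw [this]; exact hs
  have hc : Convex ℝ (closedBall (0 : E 2) b) := convex_closedBall _ _
  have hy' : y ∈ closedBall (0 : E 2) b := by
    rw [mem_closedBall, dist_zero_right]; exact hy
  have hs' : y + s • e ∈ closedBall (0 : E 2) b := by
    rw [mem_closedBall, dist_zero_right]; exact hs
  have h2 := hc hy' hs' (a := 1 - s' / s) (b := s' / s)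
    (by rw [sub_nonneg, div_le_one h]; exact h1) (div_nonneg h0 h.le) (by ring)
  rw [mem_closedBall, dist_zero_right] at h2
  have e1 : (1 - s' / s) • y + (s' / s) • (y + s • e) = y + s' • e := by
    rw [smul_add, smul_smul, div_mul_cancel₀ _ h.ne', ← add_assoc, ← add_smul]
    simp
  rwa [e1] at h2

/-- the first crossing with a circle -/
theorem cross_circle {y e : E 2} {b t : ℝ} (hy : ‖y‖ < b) (ht : b ≤ ‖y + t • e‖) (ht0 : 0 ≤ t) :
    ∃ s, 0 < s ∧ s ≤ t ∧ ‖y + s • e‖ = b := by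
  have hc : ContinuousOn (fun s : ℝ => ‖y + s • e‖) (Icc 0 t) := by fun_prop
  have h := intermediate_value_Icc ht0 hc
  have h1 : b ∈ Icc (‖y + (0 : ℝ) • e‖) (‖y + t • e‖) := by
    refine ⟨?_, ht⟩
    rw [zero_smul, add_zero]; exact hy.le
  obtain ⟨s, hs, hsb⟩ := h h1
  refine ⟨s, ?_, hs.2, hsb⟩
  rcases hs.1.lt_or_eq with h2 | h2
  · exact h2
  · exfalso
    rw [← h2] at hsb
    simp only [zero_smul, add_zero] at hsb
    linarith

theorem exists_AE {A S : Set (E 2)} {r : ℝ} (hS : Setup A S r) {y e : E 2} (hy : ‖y‖ < 1)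
    (h : HA S y e) : ∃ t, AE S y e t := by
  have he := h.unit
  obtain ⟨u, ε, hT, j, hj⟩ := h
  obtain ⟨ε₀, hε₀, hst⟩ := PU.tri_arm hT j
  rw [hj] at hst
  -- the exit of the ray
  obtain ⟨T, hT0, -, hT1⟩ : ∃ T : ℝ, 0 < T ∧ T ≤ 2 ∧ ‖y + T • e‖ = 1 := by
    refine cross_circle hy ?_ (by norm_num)
    have h1 : ‖(2 : ℝ) • e‖ = 2 := by rw [norm_smul, he]; norm_num
    have h2 : ‖(2 : ℝ) • e‖ ≤ ‖y + (2 : ℝ) • e‖ + ‖y‖ := by
      have := norm_sub_le (y + (2 : ℝ) • e) y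
      rwa [add_sub_cancel_left] at this
    linarith
  have hbd : ∀ s, 0 ≤ s → s ≤ T → ‖y + s • e‖ ≤ 1 := fun s h0 h1 =>
    line_le hy.le hT1.le h0 h1
  have hin : ∀ s, 0 ≤ s → s ≤ T → y + s • e ∈ ball (0 : E 2) r := by
    intro s h0 h1
    rw [mem_ball, dist_zero_right]
    exact (hbd s h0 h1).trans_lt hS.r1
  have hcl := hS.L.hS
  set Bad : Set ℝ := {s' | 0 < s' ∧ s' ≤ T ∧ TP S (y + s' • e)} with hBad
  have hfin : Bad.Finite := by
    have h1 := tri_finite hcl (x := (0 : E 2)) hS.r1 hS.reg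
    have hinj : Set.InjOn (fun s' : ℝ => y + s' • e) Bad := by
      intro a _ b _ hab
      have h2 : a • e = b • e := add_left_cancel hab
      have h3 : e ≠ 0 := by
        rintro rfl
        rw [norm_zero] at he
        norm_num at he
      exact smul_left_injective ℝ h3 h2
    refine Set.Finite.of_finite_image (h1.subset ?_) hinj
    rintro _ ⟨s', ⟨h2, h3, h4⟩, rfl⟩
    refine ⟨⟨h4.mem, ?_⟩, h4⟩
    rw [mem_closedBall, dist_zero_right]
    exact hbd s' h2.le h3
  have hnb : ∀ q, 0 < q → q ≤ T → q ∉ Bad → y + q • e ∈ S → ∃ w ε, Lin S (y + q • e) w ε := by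
    intro q h0 h1 hq hqS
    rcases hS.reg _ ⟨hqS, hin q h0.le h1⟩ with h | h
    · exact h
    · exact absurd ⟨h0, h1, h⟩ hq
  by_cases hne : Bad.Nonempty
  · obtain ⟨s', hs', hmin⟩ := hfin.exists_minimal hne
    have hmin' : ∀ t ∈ Bad, s' ≤ t := fun t ht => by
      rcases le_total s' t with h | h
      · exact h
      · exact hmin ht h
    obtain ⟨h2, h3, u', ε', hT'⟩ := hs'
    have hray : ∀ t, 0 < t → t < s' → ∃ ε, Lin S (y + t • e) e ε := by
      intro t ht0 ht1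
      refine follow hcl he hε₀ (s₁ := t) ht0 hst ?_ t ht0 le_rfl
      intro q hq0 hq1 hqS
      refine hnb q hq0 (by linarith) ?_ hqS
      intro hq
      have := hmin' q hq
      linarith
    refine ⟨s', h2, hbd s' h2.le h3, hray, Or.inr ?_⟩
    refine ⟨u', ε', hT', dir_of hT' (by rw [norm_neg, he]) h2 ?_⟩
    intro s hs0 hs1
    obtain ⟨ε'', hL⟩ := hray (s' - s) (by linarith) (by linarith)
    have e1 : y + s' • e + s • (-e) = y + (s' - s) • e := by
      rw [sub_smul, smul_neg]; abel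
    rw [e1]
    exact hL.z_mem
  · refine ⟨T, hT0, hT1.le, ?_, Or.inl hT1⟩
    intro s hs0 hs1
    refine follow hcl he hε₀ (s₁ := T) hT0 hst ?_ s hs0 hs1.le
    intro q hq0 hq1 hqS
    exact hnb q hq0 hq1 (fun hq => hne ⟨q, hq⟩) hqS

theorem AE.mem_end {S : Set (E 2)} (hS : IsClosed S) {y e : E 2} {t : ℝ} (h : AE S y e t) :
    y + t • e ∈ S := by
  have ht : Tendsto (fun s : ℝ => y + s • e) (𝓝[<] t) (𝓝 (y + t • e)) := by
    refine Tendsto.mono_left ?_ nhdsWithin_le_nhds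
    exact Continuous.tendsto (by fun_prop) t
  refine hS.mem_of_tendsto ht ?_
  filter_upwards [Ioo_mem_nhdsLT h.pos] with s hs
  obtain ⟨ε, h⟩ := h.ray s hs.1 hs.2
  exact h.z_mem

/-- the arm as a subset of `S` -/
theorem AE.sub {S : Set (E 2)} (hS : IsClosed S) {y e : E 2} {t : ℝ} (h : AE S y e t) (hy : y ∈ S) :
    segment ℝ y (y + t • e) ⊆ S := by
  intro z hz
  rw [segment_eq_image'] at hz
  obtain ⟨θ, ⟨h0, h1⟩, rfl⟩ := hz
  have e1 : y + θ • (y + t • e - y) = y + (θ * t) • e := by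
    rw [add_sub_cancel_left, smul_smul]
  simp only [e1]
  rcases h0.lt_or_eq with h2 | h2
  · rcases h1.lt_or_eq with h3 | h3
    · obtain ⟨ε, hL⟩ := h.ray (θ * t) (mul_pos h2 h.pos) (by nlinarith [h.pos])
      exact hL.z_mem
    · rw [h3, one_mul]; exact h.mem_end hS
  · rw [← h2, zero_mul, zero_smul, add_zero]; exact hy

/-- an interior point of an arm has a neighbourhood in the arm -/
theorem AE.loc {S : Set (E 2)} {y e : E 2} {t : ℝ} (h : AE S y e t) {s : ℝ} (h0 : 0 < s)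
    (h1 : s < t) : ∃ ε > 0, S ∩ ball (y + s • e) ε ⊆ segment ℝ y (y + t • e) := by
  obtain ⟨ε, hL⟩ := h.ray s h0 h1
  refine ⟨min ε (min s (t - s)), lt_min hL.pos (lt_min h0 (by linarith)), ?_⟩
  rintro z ⟨hz, hb⟩
  have hb1 : z ∈ ball (y + s • e) ε := ball_subset_ball (min_le_left _ _) hb
  have h2 : z ∈ S ∩ ball (y + s • e) ε := ⟨hz, hb1⟩
  rw [hL.eq] at h2
  obtain ⟨q, -, rfl⟩ := h2
  rw [mem_ball, fdist_line hL.unit] at hb
  have hq1 : |q| < s := hb.trans_le ((min_le_right _ _).trans (min_le_left _ _))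
  have hq2 : |q| < t - s := hb.trans_le ((min_le_right _ _).trans (min_le_right _ _))
  obtain ⟨a1, a2⟩ := abs_lt.1 hq1
  obtain ⟨b1, b2⟩ := abs_lt.1 hq2
  rw [segment_eq_image']
  refine ⟨(s + q) / t, ⟨div_nonneg (by linarith) h.pos.le, (div_le_one h.pos).2 (by linarith)⟩, ?_⟩
  simp only
  rw [add_sub_cancel_left, smul_smul, div_mul_cancel₀ _ h.pos.ne', add_smul]
  abel

end NH
end H11ST
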