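import Pool.Agent.Helper35.NH.ARMS
open MeasureTheory Metric Set Filter Topology Real
open scoped ENNReal NNReal

/-!
Row TREE of the sheet.
-/

namespace H11ST
namespace NH

/-- an edge between two tripod points -/
structure Ed (S : Set (E 2)) (y y' e : E 2) (t : ℝ) : Prop where
  pos : 0 < t
  fin : y' = y + t • e
  ray : ∀ s, 0 < s → s < t → ∃ ε, Lin S (y + s • e) e ε
  l : HA S y e
  r : HA S y' (-e)

theorem Ed.symm {S : Set (E 2)} {y y' e : E 2} {t : ℝ} (h : Ed S y y' e t) : Ed S y' y (-e) t := by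
  refine ⟨h.pos, ?_, ?_, h.r, by rw [neg_neg]; exact h.l⟩
  · rw [h.fin]; module
  · intro s h0 h1
    obtain ⟨ε, hL⟩ := h.ray (t - s) (by linarith) (by linarith)
    have e1 : y' + s • (-e) = y + (t - s) • e := by rw [h.fin]; module
    rw [e1]
    exact ⟨ε, hL.neg⟩

theorem Ed.ae {S : Set (E 2)} {y y' e : E 2} {t : ℝ} (h : Ed S y y' e t) (hy : ‖y'‖ ≤ 1) :
    AE S y e t := by
  refine ⟨h.pos, ?_, h.ray, Or.inr ?_⟩
  · rw [← h.fin]; exact hy
  · rw [← h.fin]; exact h.r

theorem inner_pos_of {y p e : E 2} {s ρ : ℝ} (he : ‖e‖ = 1) (hs : 0 < s) (hy : ‖y‖ < ρ)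
    (hp : p = y + s • e) (hpn : ‖p‖ = ρ) : 0 < inner ℝ p e := by
  have h1 : y = p - s • e := by rw [hp]; abel
  have h2 : ‖y‖ ^ 2 = ρ ^ 2 - 2 * s * inner ℝ p e + s ^ 2 := by
    rw [h1, norm_sub_sq_real, inner_smul_right, norm_smul, he, hpn, Real.norm_eq_abs, mul_one,
      sq_abs]
    ring
  have h3 := norm_nonneg y
  have h4 : ‖y‖ ^ 2 < ρ ^ 2 := by nlinarith
  by_contra hcon
  push Not at hcon
  nlinarith

/-- two of the three pairs of points are joined by edges -/
theorem two_edges {A S : Set (E 2)} {r : ℝ} (hS : Setup A S r) {Y : Finset (E 2)}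
    (hc : Y.card = 3) (hY : ∀ y ∈ Y, ‖y‖ < 1 / 2 ∧ ∃ u ε, Tri S y u ε) {ρ : ℝ} (h1 : 1 / 2 < ρ)
    (h2 : ρ < 1) (h5 : (S ∩ sphere 0 ρ).encard ≤ 5)
    (hρ : ∀ z ∈ sphere (0 : E 2) ρ, ¬ ∃ u ε, Tri S z u ε) :
    (∀ z, TP S z → ‖z‖ < ρ → z ∈ Y) ∧
    ∃ s0 s1 s2 e1 e2 : E 2, ∃ t1 t2 : ℝ, (∀ z ∈ Y, z = s0 ∨ z = s1 ∨ z = s2) ∧ s1 ≠ s2 ∧
      s0 ∈ Y ∧ s1 ∈ Y ∧ s2 ∈ Y ∧ Ed S s0 s1 e1 t1 ∧ Ed S s0 s2 e2 t2 := by
  classical
  have hin : ∀ z, TP S z → ‖z‖ < ρ → z ∈ Y := by
    intro z hz hzρ
    by_contra hzY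
    have hb : ∀ y ∈ insert z Y, y ∈ ball (0 : E 2) ρ := by
      intro y hy
      rw [mem_ball, dist_zero_right]
      rcases Finset.mem_insert.1 hy with rfl | hy
      · exact hzρ
      · exact (hY y hy).1.trans h1
    have hT : ∀ y ∈ insert z Y, ∃ u ε, Tri S y u ε := by
      intro y hy
      rcases Finset.mem_insert.1 hy with rfl | hy
      · exact hz
      · exact (hY y hy).2
    have h := hS.L.sphere_count hS.cl (insert z Y) (Finset.insert_nonempty _ _) hb hT
      (ρ := ρ) le_rfl (h2.trans hS.r1)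
    rw [Finset.card_insert_of_notMem hzY, hc] at h
    have h' := h.trans h5
    norm_num at h'
  refine ⟨hin, ?_⟩
  obtain ⟨y0, y1, y2, h01, h02, h12, hYeq⟩ := Finset.card_eq_three.1 hc
  set y : Fin 3 → E 2 := ![y0, y1, y2] with hy
  have hyY : ∀ k, y k ∈ Y := by
    intro k
    rw [hYeq]
    fin_cases k <;> simp [hy]
  have hYy : ∀ z ∈ Y, ∃ k, z = y k := by
    intro z hz
    rw [hYeq] at hz
    simp only [Finset.mem_insert, Finset.mem_singleton] at hz
    rcases hz with h | h | h
    · exact ⟨0, h⟩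
    · exact ⟨1, h⟩
    · exact ⟨2, h⟩
  have hyinj : ∀ i k, y i = y k → i = k := by
    intro i k hik
    fin_cases i <;> fin_cases k <;> simp [hy] at hik <;> first | rfl | exact absurd hik (by assumption) | exact absurd hik.symm (by assumption)
  have hyn : ∀ k, ‖y k‖ < 1 / 2 := fun k => (hY _ (hyY k)).1
  choose u ε hT using fun k => (hY _ (hyY k)).2
  have hHA : ∀ k j, HA S (y k) (u k j) := fun k j => ⟨u k, ε k, hT k, j, rfl⟩
  choose t ht using fun (q : Fin 3 × Fin 3) =>
    exists_AE hS (by linarith [hyn q.1] : ‖y q.1‖ < 1) (hHA q.1 q.2)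
  -- the arms which do not end in `Y`
  set C : Finset (Fin 3 × Fin 3) := Finset.univ.filter
    (fun q => ¬ ∃ k, y q.1 + t q • u q.1 q.2 = y k) with hC
  have hcr : ∀ q : Fin 3 × Fin 3, q ∈ C → ∃ s, 0 < s ∧ s < t q ∧ ‖y q.1 + s • u q.1 q.2‖ = ρ := by
    intro q hq
    rw [hC, Finset.mem_filter] at hq
    have hge : ρ ≤ ‖y q.1 + t q • u q.1 q.2‖ := by
      by_contra hlt
      push Not at hlt
      rcases (ht q).fin with h | h
      · linarith
      · obtain ⟨k, hk⟩ := hYy _ (hin _ h.tp hlt)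
        exact hq.2 ⟨k, hk⟩
    obtain ⟨s, hs0, hs1, hs2⟩ := cross_circle ((hyn q.1).trans h1) hge (ht q).pos.le
    refine ⟨s, hs0, ?_, hs2⟩
    rcases hs1.lt_or_eq with h | h
    · exact h
    · exfalso
      rw [h] at hs2
      rcases (ht q).fin with h' | h'
      · rw [hs2] at h'; linarith
      · exact hρ _ (by rw [mem_sphere_zero_iff_norm]; exact hs2) h'.tp
  choose! sg hsg0 hsg1 hsg2 using hcr
  have hCcard : C.card ≤ 5 := by
    have hinj : Set.InjOn (fun q : Fin 3 × Fin 3 => y q.1 + sg q • u q.1 q.2)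
        (C : Set (Fin 3 × Fin 3)) := by
      intro q hq q' hq' hqq
      simp only at hqq
      have hq := Finset.mem_coe.1 hq
      have hq' := Finset.mem_coe.1 hq'
      obtain ⟨ε1, hL1⟩ := (ht q).ray _ (hsg0 q hq) (hsg1 q hq)
      obtain ⟨ε2, hL2⟩ := (ht q').ray _ (hsg0 q' hq') (hsg1 q' hq')
      have p1 := inner_pos_of ((hT q.1).norm q.2) (hsg0 q hq) ((hyn q.1).trans h1) rfl (hsg2 q hq)
      have p2 := inner_pos_of ((hT q'.1).norm q'.2) (hsg0 q' hq') ((hyn q'.1).trans h1) rfl
        (hsg2 q' hq')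
      rw [← hqq] at hL2 p2
      have hee : u q'.1 q'.2 = u q.1 q.2 := by
        rcases lin_dir hL1 hL2 with h | h
        · exact h
        · exfalso
          rw [h, inner_neg_right] at p2
          linarith
      have hyy : y q'.1 = y q.1 + (sg q - sg q') • u q.1 q.2 := by
        rw [hee] at hqq
        have : y q'.1 = y q'.1 + sg q' • u q.1 q.2 - sg q' • u q.1 q.2 := by abel
        rw [this, ← hqq]; module
      have hyy' : y q.1 = y q'.1 + (sg q' - sg q) • u q'.1 q'.2 := by
        rw [hyy, hee]; module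
      rcases lt_trichotomy (sg q) (sg q') with h | h | h
      · exfalso
        obtain ⟨ε3, hL3⟩ := (ht q').ray (sg q' - sg q) (by linarith)
          (by linarith [hsg0 q hq, hsg1 q' hq'])
        rw [← hyy'] at hL3
        exact tp_not_lin (hHA q.1 0).tp hL3
      · rw [h, sub_self, zero_smul, add_zero] at hyy
        have h3 := hyinj _ _ hyy
        obtain ⟨i, j⟩ := q
        obtain ⟨i', j'⟩ := q'
        simp only at h3 hee
        subst h3
        rw [tri_inj (hT i') hee]
      · exfalso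
        obtain ⟨ε3, hL3⟩ := (ht q).ray (sg q - sg q') (by linarith)
          (by linarith [hsg0 q' hq', hsg1 q hq])
        rw [← hyy] at hL3
        exact tp_not_lin (hHA q'.1 0).tp hL3
    have h6 : (C.card : ℕ∞) ≤ 5 := by
      calc (C.card : ℕ∞) = (C : Set (Fin 3 × Fin 3)).encard :=
            (Set.encard_coe_eq_coe_finsetCard _).symm
        _ = ((fun q : Fin 3 × Fin 3 => y q.1 + sg q • u q.1 q.2) ''
            (C : Set (Fin 3 × Fin 3))).encard := hinj.encard_image.symm
        _ ≤ (S ∩ sphere 0 ρ).encard := by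
            refine Set.encard_le_encard ?_
            rintro z ⟨q, hq, rfl⟩
            have hq := Finset.mem_coe.1 hq
            obtain ⟨ε1, hL1⟩ := (ht q).ray _ (hsg0 q hq) (hsg1 q hq)
            exact ⟨hL1.z_mem, by rw [mem_sphere_zero_iff_norm]; exact hsg2 q hq⟩
        _ ≤ 5 := h5
    exact_mod_cast h6
  -- the arms which end in `Y`
  set D : Finset (Fin 3 × Fin 3) := Finset.univ.filter
    (fun q => ∃ k, y q.1 + t q • u q.1 q.2 = y k) with hD
  have hDcard : 4 ≤ D.card := by
    have h6 : D.card + C.card = (Finset.univ : Finset (Fin 3 × Fin 3)).card := by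
      rw [hD, hC]
      exact Finset.card_filter_add_card_filter_not _
    have h7 : (Finset.univ : Finset (Fin 3 × Fin 3)).card = 9 := by
      rw [Finset.card_univ]; rfl
    omega
  set R : Fin 3 → Fin 3 → Prop := fun i k => ∃ j, y i + t (i, j) • u i j = y k with hR
  have hRR : ∀ i, ¬ R i i := by
    rintro i ⟨j, hj⟩
    have h6 : t (i, j) • u i j = 0 := by
      have := congrArg (fun z => z - y i) hj
      simpa using this
    rcases smul_eq_zero.1 h6 with h7 | h7
    · exact (ht (i, j)).pos.ne' h7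
    · have := (hT i).norm j
      rw [h7, norm_zero] at this
      exact one_ne_zero this.symm
  have hDk : ∀ q : Fin 3 × Fin 3, q ∈ D → ∃ k, y q.1 + t q • u q.1 q.2 = y k := by
    intro q hq
    rw [hD, Finset.mem_filter] at hq
    exact hq.2
  choose! kk hkk using hDk
  have hF : 4 ≤ (Finset.univ.filter (fun p : Fin 3 × Fin 3 => R p.1 p.2)).card := by
    refine hDcard.trans ?_
    refine Finset.card_le_card_of_injOn (fun q => (q.1, kk q)) ?_ ?_
    · intro q hq
      rw [Finset.mem_coe, Finset.mem_filter]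
      exact ⟨Finset.mem_univ _, q.2, hkk q (Finset.mem_coe.1 hq)⟩
    · intro q hq q' hq' hqq
      simp only [Prod.mk.injEq] at hqq
      obtain ⟨i, j⟩ := q
      obtain ⟨i', j'⟩ := q'
      obtain ⟨a1, a2⟩ := hqq
      simp only at a1
      subst a1
      have b1 := hkk _ (Finset.mem_coe.1 hq)
      have b2 := hkk _ (Finset.mem_coe.1 hq')
      rw [a2, ← b2] at b1
      simp only at b1
      have b3 := add_left_cancel b1
      have b4 : u i j = u i j' := by
        have b5 : t (i, j) = t (i, j') := by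
          have := congrArg norm b3
          rw [norm_smul, norm_smul, (hT i).norm, (hT i).norm, Real.norm_eq_abs, Real.norm_eq_abs,
            abs_of_pos (ht (i, j)).pos, abs_of_pos (ht (i, j')).pos, mul_one, mul_one] at this
          exact this
        rw [b5] at b3
        exact smul_right_injective _ (ht (i, j')).pos.ne' b3
      rw [tri_inj (hT i) b4]
  -- the combinatorics
  have hcomb : ∃ i0 i1 i2 : Fin 3, i0 ≠ i1 ∧ i0 ≠ i2 ∧ i1 ≠ i2 ∧ (R i0 i1 ∨ R i1 i0) ∧
      (R i0 i2 ∨ R i2 i0) := by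
    by_contra hcon
    push Not at hcon
    have key : ∀ a b : Fin 3, (∀ i k, R i k → (i = a ∧ k = b) ∨ (i = b ∧ k = a)) → False := by
      intro a b hab
      have h6 : (Finset.univ.filter (fun p : Fin 3 × Fin 3 => R p.1 p.2)) ⊆ {(a, b), (b, a)} := by
        rintro ⟨i, k⟩ hik
        rw [Finset.mem_filter] at hik
        rcases hab i k hik.2 with ⟨rfl, rfl⟩ | ⟨rfl, rfl⟩ <;> simp
      have h7 := (Finset.card_le_card h6).trans (Finset.card_le_two)
      omega
    have r00 := hRR 0
    have r11 := hRR 1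
    have r22 := hRR 2
    have c012 := hcon 0 1 2 (by decide) (by decide) (by decide)
    have c102 := hcon 1 0 2 (by decide) (by decide) (by decide)
    have c201 := hcon 2 0 1 (by decide) (by decide) (by decide)
    by_cases ha : R 0 1 ∨ R 1 0
    · have hb := c012 ha
      have hc' := c102 ha.symm
      refine key 0 1 ?_
      intro i k hik
      fin_cases i <;> fin_cases k
      · exact absurd hik r00
      · exact Or.inl ⟨rfl, rfl⟩
      · exact absurd hik hb.1
      · exact Or.inr ⟨rfl, rfl⟩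
      · exact absurd hik r11
      · exact absurd hik hc'.1
      · exact absurd hik hb.2
      · exact absurd hik hc'.2
      · exact absurd hik r22
    · push Not at ha
      by_cases hb : R 0 2 ∨ R 2 0
      · have hc' := c201 hb.symm
        refine key 0 2 ?_
        intro i k hik
        fin_cases i <;> fin_cases k
        · exact absurd hik r00
        · exact absurd hik ha.1
        · exact Or.inl ⟨rfl, rfl⟩
        · exact absurd hik ha.2
        · exact absurd hik r11
        · exact absurd hik hc'.2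
        · exact Or.inr ⟨rfl, rfl⟩
        · exact absurd hik hc'.1
        · exact absurd hik r22
      · push Not at hb
        refine key 1 2 ?_
        intro i k hik
        fin_cases i <;> fin_cases k
        · exact absurd hik r00
        · exact absurd hik ha.1
        · exact absurd hik hb.1
        · exact absurd hik ha.2
        · exact absurd hik r11
        · exact Or.inl ⟨rfl, rfl⟩
        · exact absurd hik hb.2
        · exact Or.inr ⟨rfl, rfl⟩
        · exact absurd hik r22
  have hEd : ∀ i k, R i k → ∃ e t, Ed S (y i) (y k) e t := by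
    rintro i k ⟨j, hj⟩
    refine ⟨u i j, t (i, j), (ht (i, j)).pos, hj.symm, (ht (i, j)).ray, hHA i j, ?_⟩
    rcases (ht (i, j)).fin with h | h
    · exfalso
      simp only at h
      rw [hj] at h
      linarith [hyn k]
    · simp only at h
      rwa [hj] at h
  have hEd' : ∀ i k, (R i k ∨ R k i) → ∃ e t, Ed S (y i) (y k) e t := by
    intro i k h
    rcases h with h | h
    · exact hEd i k h
    · obtain ⟨e, t, h'⟩ := hEd k i h
      exact ⟨-e, t, h'.symm⟩
  obtain ⟨i0, i1, i2, n01, n02, n12, a1, a2⟩ := hcomb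
  obtain ⟨e1, t1, E1⟩ := hEd' _ _ a1
  obtain ⟨e2, t2, E2⟩ := hEd' _ _ a2
  refine ⟨y i0, y i1, y i2, e1, e2, t1, t2, ?_, fun h => n12 (hyinj _ _ h), hyY _, hyY _, hyY _,
    E1, E2⟩
  intro z hz
  obtain ⟨k, rfl⟩ := hYy z hz
  have : k = i0 ∨ k = i1 ∨ k = i2 := by omega
  rcases this with rfl | rfl | rfl
  · exact Or.inl rfl
  · exact Or.inr (Or.inl rfl)
  · exact Or.inr (Or.inr rfl)

end NH
end H11ST
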