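import Pool.Agent.Helper35.NH.TREE
open MeasureTheory Metric Set Filter Topology Real
open scoped ENNReal NNReal

/-!
Row TREE of the sheet: directions.
-/

namespace H11ST
namespace NH

theorem ev_eq_pt' (φ : ℝ) : ev φ = pt φ := rfl

theorem ev_add_int (a : ℝ) (k : ℤ) : ev (a + k * (2 * π)) = ev a := by
  rw [ev_eq_pt', ev_eq_pt']
  ext i
  fin_cases i
  · exact Real.cos_add_int_mul_two_pi a k
  · exact Real.sin_add_int_mul_two_pi a k

theorem ev_two_pi (a : ℝ) : ev (a + 2 * π) = ev a := by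
  have := ev_add_int a 1
  rwa [Int.cast_one, one_mul] at this

theorem neg_ev (a : ℝ) : -ev a = ev (a + π) := by
  rw [ev_eq_pt', ev_eq_pt', pt_add_pi]

theorem exists_ev {w : E 2} (h : ‖w‖ = 1) : ∃ a, w = ev a := by
  obtain ⟨u, -, -, h⟩ := exists_pt h 0
  exact ⟨0 + u, h⟩

theorem at120 {a : ℝ} {w : E 2} (hw : ‖w‖ = 1) (hi : inner ℝ (ev a) w = -(1 / 2 : ℝ)) :
    w = ev (a + 2 * π / 3) ∨ w = ev (a - 2 * π / 3) := by
  obtain ⟨x, -, -, rfl⟩ := exists_pt hw a
  rw [← ev_eq_pt', inner_ev] at hi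
  have e1 : a - (a + x) = -x := by ring
  rw [e1, Real.cos_neg] at hi
  have h2 : Real.cos (2 * π / 3) = -(1 / 2) := by
    have : (2 * π / 3 : ℝ) = π - π / 3 := by ring
    rw [this, Real.cos_pi_sub, Real.cos_pi_div_three]
  rw [← h2, Real.cos_eq_cos_iff] at hi
  obtain ⟨k, hk | hk⟩ := hi
  · left
    have : a + x = a + 2 * π / 3 + ((-k : ℤ) : ℝ) * (2 * π) := by push_cast; linarith
    rw [← ev_eq_pt', this, ev_add_int]
  · right
    have : a + x = a - 2 * π / 3 + ((k : ℤ) : ℝ) * (2 * π) := by linarith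
    rw [← ev_eq_pt', this, ev_add_int]

theorem tri_dirs {S : Set (E 2)} {z : E 2} {u : Fin 3 → E 2} {ε β : ℝ} (hT : Tri S z u ε)
    {j : Fin 3} (hj : u j = ev β) : ∃ j1 j2, u j1 = ev (β + 2 * π / 3) ∧
      u j2 = ev (β - 2 * π / 3) ∧ ∀ i, i = j ∨ i = j1 ∨ i = j2 := by
  have hdec : ∀ j : Fin 3, ∃ j1 j2 : Fin 3, j ≠ j1 ∧ j ≠ j2 ∧ j1 ≠ j2 ∧
    ∀ i, i = j ∨ i = j1 ∨ i = j2 := by decide
  obtain ⟨j1, j2, n1, n2, n3, hall⟩ := hdec j
  have a1 := at120 (hT.norm j1) (by rw [← hj]; exact hT.ang j j1 n1)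
  have a2 := at120 (hT.norm j2) (by rw [← hj]; exact hT.ang j j2 n2)
  rcases a1 with a1 | a1 <;> rcases a2 with a2 | a2
  · exact absurd (tri_inj hT (a1.trans a2.symm)) n3
  · exact ⟨j1, j2, a1, a2, hall⟩
  · refine ⟨j2, j1, a2, a1, fun i => ?_⟩
    rcases hall i with h | h | h
    · exact Or.inl h
    · exact Or.inr (Or.inr h)
    · exact Or.inr (Or.inl h)
  · exact absurd (tri_inj hT (a1.trans a2.symm)) n3

theorem ha_rot {S : Set (E 2)} {z : E 2} {β : ℝ} (h : HA S z (ev β)) :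
    HA S z (ev (β + 2 * π / 3)) ∧ HA S z (ev (β - 2 * π / 3)) := by
  obtain ⟨u, ε, hT, j, hj⟩ := h
  obtain ⟨j1, j2, h1, h2, -⟩ := tri_dirs hT hj
  exact ⟨⟨u, ε, hT, j1, h1⟩, ⟨u, ε, hT, j2, h2⟩⟩

theorem mem_seg {z e : E 2} {q l : ℝ} (h0 : 0 ≤ q) (h1 : q ≤ l) (hl : 0 < l) :
    z + q • e ∈ segment ℝ z (z + l • e) := by
  rw [segment_eq_image']
  refine ⟨q / l, ⟨div_nonneg h0 hl.le, (div_le_one hl).2 h1⟩, ?_⟩
  simp only
  rw [add_sub_cancel_left, smul_smul, div_mul_cancel₀ _ hl.ne']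

theorem vertex_loc {S : Set (E 2)} {z : E 2} {β l0 l1 l2 : ℝ} (h : HA S z (ev β)) (p0 : 0 < l0)
    (p1 : 0 < l1) (p2 : 0 < l2) : ∃ ε > 0, S ∩ ball z ε ⊆ segment ℝ z (z + l0 • ev β) ∪
      segment ℝ z (z + l1 • ev (β + 2 * π / 3)) ∪ segment ℝ z (z + l2 • ev (β - 2 * π / 3)) := by
  obtain ⟨u, ε, hT, j, hj⟩ := h
  obtain ⟨j1, j2, h1, h2, hall⟩ := tri_dirs hT hj
  refine ⟨min ε (min l0 (min l1 l2)), lt_min hT.pos (lt_min p0 (lt_min p1 p2)), ?_⟩
  rintro w ⟨hw, hb⟩
  have hb1 : w ∈ S ∩ ball z ε := ⟨hw, ball_subset_ball (min_le_left _ _) hb⟩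
  rw [hT.eq] at hb1
  obtain ⟨i, q, hq0, -, rfl⟩ := hb1
  rw [mem_ball, hT.dist_arm, abs_of_nonneg hq0] at hb
  have c0 : q ≤ l0 := (hb.trans_le ((min_le_right _ _).trans (min_le_left _ _))).le
  have c1 : q ≤ l1 := (hb.trans_le ((min_le_right _ _).trans
    ((min_le_right _ _).trans (min_le_left _ _)))).le
  have c2 : q ≤ l2 := (hb.trans_le ((min_le_right _ _).trans
    ((min_le_right _ _).trans (min_le_right _ _)))).le
  rcases hall i with rfl | rfl | rfl
  · rw [hj]; exact Or.inl (Or.inl (mem_seg hq0 c0 p0))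
  · rw [h1]; exact Or.inl (Or.inr (mem_seg hq0 c1 p1))
  · rw [h2]; exact Or.inr (mem_seg hq0 c2 p2)

theorem seg_cases {z e w : E 2} {l : ℝ} (hl : 0 < l) (hw : w ∈ segment ℝ z (z + l • e)) :
    w = z ∨ w = z + l • e ∨ ∃ q, 0 < q ∧ q < l ∧ w = z + q • e := by
  rw [segment_eq_image'] at hw
  obtain ⟨θ, ⟨h0, h1⟩, rfl⟩ := hw
  have e1 : z + θ • (z + l • e - z) = z + (θ * l) • e := by
    rw [add_sub_cancel_left, smul_smul]
  simp only [e1]
  rcases h0.lt_or_eq with h2 | h2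
  · rcases h1.lt_or_eq with h3 | h3
    · exact Or.inr (Or.inr ⟨θ * l, mul_pos h2 hl, by nlinarith, rfl⟩)
    · right; left; rw [h3, one_mul]
  · left; rw [← h2, zero_mul, zero_smul, add_zero]

theorem sin_23 : Real.sin (2 * π / 3) = √3 / 2 := by
  have : (2 * π / 3 : ℝ) = π - π / 3 := by ring
  rw [this, Real.sin_pi_sub, Real.sin_pi_div_three]

theorem build {A S : Set (E 2)} {r : ℝ} (hS : Setup A S r) {s0 s1 s2 : E 2} {φ a0 a1 : ℝ}
    (n0 : ‖s0‖ < 1 / 2) (n1 : ‖s1‖ < 1 / 2) (n2 : ‖s2‖ < 1 / 2)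
    (E1 : Ed S s0 s1 (ev (φ + 2 * π / 3)) a0) (E2 : Ed S s0 s2 (ev (φ - 2 * π / 3)) a1)
    (hT : ∀ z, TP S z → ‖z‖ < 1 / 2 → z = s0 ∨ z = s1 ∨ z = s2) :
    ∃ s a v c, Geo φ s a v c ∧ InS S φ s v := by
  have hcl := hS.L.hS
  set s : Fin 3 → E 2 := ![s0, s1, s2] with hs
  set a : Fin 2 → ℝ := ![a0, a1] with ha
  have e0 : s 0 = s0 := rfl
  have e1 : s 1 = s1 := rfl
  have e2 : s 2 = s2 := rfl
  have f0 : a 0 = a0 := rfl
  have f1 : a 1 = a1 := rfl
  have hsn : ∀ k, ‖s k‖ < 1 / 2 := by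
    intro k
    fin_cases k
    · exact n0
    · exact n1
    · exact n2
  -- directions of the arms
  have h00 : HA S s0 (ev φ) := by
    have := (ha_rot E1.l).2
    have e : φ + 2 * π / 3 - 2 * π / 3 = φ := by ring
    rwa [e] at this
  have hr1 : HA S s1 (ev (φ + 5 * π / 3)) := by
    have := E1.r
    rw [neg_ev] at this
    have e : φ + 2 * π / 3 + π = φ + 5 * π / 3 := by ring
    rwa [e] at this
  have h1R : HA S s1 (ev (φ + π / 3)) := by
    have := (ha_rot hr1).1
    have e : φ + 5 * π / 3 + 2 * π / 3 = φ + π / 3 + 2 * π := by ring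
    rwa [e, ev_two_pi] at this
  have h1B : HA S s1 (ev (φ + π)) := by
    have := (ha_rot hr1).2
    have e : φ + 5 * π / 3 - 2 * π / 3 = φ + π := by ring
    rwa [e] at this
  have hr2 : HA S s2 (ev (φ + π / 3)) := by
    have := E2.r
    rw [neg_ev] at this
    have e : φ - 2 * π / 3 + π = φ + π / 3 := by ring
    rwa [e] at this
  have h2B : HA S s2 (ev (φ + π)) := by
    have := (ha_rot hr2).1
    have e : φ + π / 3 + 2 * π / 3 = φ + π := by ring
    rwa [e] at this
  have h2L : HA S s2 (ev (φ + 5 * π / 3)) := by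
    have := (ha_rot hr2).2
    have e : φ + 5 * π / 3 = φ + π / 3 - 2 * π / 3 + 2 * π := by ring
    rw [e, ev_two_pi]
    exact this
  have hd0 : dv φ 0 = ev φ := by
    have : dl 0 = 0 := rfl
    rw [dv, this, add_zero]
  have hd1 : dv φ 1 = ev (φ + π / 3) := rfl
  have hd2 : dv φ 2 = ev (φ + π) := rfl
  have hd3 : dv φ 3 = ev (φ + π) := rfl
  have hd4 : dv φ 4 = ev (φ + 5 * π / 3) := rfl
  have harm : ∀ i, HA S (s (ft i)) (dv φ i) := by
    intro i
    fin_cases i
    · change HA S s0 (dv φ 0)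
      rw [hd0]; exact h00
    · exact h1R
    · exact h1B
    · exact h2B
    · exact h2L
  choose c hc using fun i => exists_AE hS (by linarith [hsn (ft i)] : ‖s (ft i)‖ < 1) (harm i)
  set v : Fin 5 → E 2 := fun i => s (ft i) + c i • dv φ i with hv
  have hcpos : ∀ i, 0 < c i := fun i => (hc i).pos
  have hs3 : (0 : ℝ) < √3 := by positivity
  have pa0 := E1.pos
  have pa1 := E2.pos
  have hs1 : s 1 = s 0 + a 0 • ev (φ + 2 * π / 3) := E1.fin
  have hs2 : s 2 = s 0 + a 1 • ev (φ - 2 * π / 3) := E2.fin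
  -- no arm ends in one of the three points
  have hno : ∀ i k, v i ≠ s k := by
    intro i k hik
    have hcr := congrArg (fun z => cr (dv φ i) (z - s (ft i))) hik
    simp only [hv, add_sub_cancel_left, cr_smul_right] at hcr
    rw [dv, ev_eq_pt', cr_self, mul_zero] at hcr
    have hself : ∀ i, k = ft i → v i = s k → False := by
      intro i h1 h2
      rw [h1] at h2
      have h3 : c i • dv φ i = 0 := by
        have := congrArg (fun z => z - s (ft i)) h2
        simpa [hv] using this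
      rcases smul_eq_zero.1 h3 with h4 | h4
      · exact (hcpos i).ne' h4
      · have h5 : ‖dv φ i‖ = 1 := norm_ev _
        rw [h4, norm_zero] at h5
        exact one_ne_zero h5.symm
    -- differences
    have d10 : s 1 - s 0 = a0 • pt (φ + 2 * π / 3) := by
      rw [hs1, add_sub_cancel_left]; rfl
    have d20 : s 2 - s 0 = a1 • pt (φ - 2 * π / 3) := by
      rw [hs2, add_sub_cancel_left]; rfl
    have d01 : s 0 - s 1 = (-a0) • pt (φ + 2 * π / 3) := by
      rw [← neg_sub, d10, neg_smul]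
    have d02 : s 0 - s 2 = (-a1) • pt (φ - 2 * π / 3) := by
      rw [← neg_sub, d20, neg_smul]
    have d21 : s 2 - s 1 = a1 • pt (φ - 2 * π / 3) + (-a0) • pt (φ + 2 * π / 3) := by
      rw [← d20, ← d01]; abel
    have d12 : s 1 - s 2 = a0 • pt (φ + 2 * π / 3) + (-a1) • pt (φ - 2 * π / 3) := by
      rw [← d10, ← d02]; abel
    have k0 : 0 < a0 * (√3 / 2) := by positivity
    have k1 : 0 < a1 * (√3 / 2) := by positivity
    have w0 : dl 0 = 0 := rfl
    have w1 : dl 1 = π / 3 := rfl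
    have w2 : dl 2 = π := rfl
    have w3 : dl 3 = π := rfl
    have w4 : dl 4 = 5 * π / 3 := rfl
    have g0 : ft 0 = 0 := rfl
    have g1 : ft 1 = 1 := rfl
    have g2 : ft 2 = 1 := rfl
    have g3 : ft 3 = 2 := rfl
    have g4 : ft 4 = 2 := rfl
    -- values of the sines
    have t1 : Real.sin (φ + 2 * π / 3 - (φ + 0)) = √3 / 2 := by
      rw [← sin_23]; congr 1; ring
    have t2 : Real.sin (φ - 2 * π / 3 - (φ + 0)) = -(√3 / 2) := by
      rw [← sin_23, ← Real.sin_neg]; congr 1; ring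
    have t3 : Real.sin (φ + 2 * π / 3 - (φ + π / 3)) = √3 / 2 := by
      rw [← Real.sin_pi_div_three]; congr 1; ring
    have t4 : Real.sin (φ - 2 * π / 3 - (φ + π / 3)) = 0 := by
      have : φ - 2 * π / 3 - (φ + π / 3) = -π := by ring
      rw [this, Real.sin_neg, Real.sin_pi, neg_zero]
    have t5 : Real.sin (φ + 2 * π / 3 - (φ + π)) = -(√3 / 2) := by
      rw [← Real.sin_pi_div_three, ← Real.sin_neg]; congr 1; ring
    have t6 : Real.sin (φ - 2 * π / 3 - (φ + π)) = √3 / 2 := by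
      have : φ - 2 * π / 3 - (φ + π) = π / 3 - 2 * π := by ring
      rw [this, Real.sin_sub_two_pi, Real.sin_pi_div_three]
    have t7 : Real.sin (φ + 2 * π / 3 - (φ + 5 * π / 3)) = 0 := by
      have : φ + 2 * π / 3 - (φ + 5 * π / 3) = -π := by ring
      rw [this, Real.sin_neg, Real.sin_pi, neg_zero]
    have t8 : Real.sin (φ - 2 * π / 3 - (φ + 5 * π / 3)) = -(√3 / 2) := by
      have : φ - 2 * π / 3 - (φ + 5 * π / 3) = -(π / 3) - 2 * π := by ring
      rw [this, Real.sin_sub_two_pi, Real.sin_neg, Real.sin_pi_div_three]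
    fin_cases i <;> fin_cases k
    · exact hself 0 rfl hik
    · change 0 = cr (pt (φ + dl 0)) (s 1 - s (ft 0)) at hcr
      rw [w0, g0, d10, cr_smul_right, cr_pt, t1] at hcr
      linarith
    · change 0 = cr (pt (φ + dl 0)) (s 2 - s (ft 0)) at hcr
      rw [w0, g0, d20, cr_smul_right, cr_pt, t2] at hcr
      linarith
    · change 0 = cr (pt (φ + dl 1)) (s 0 - s (ft 1)) at hcr
      rw [w1, g1, d01, cr_smul_right, cr_pt, t3] at hcr
      linarith
    · exact hself 1 rfl hik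
    · change 0 = cr (pt (φ + dl 1)) (s 2 - s (ft 1)) at hcr
      rw [w1, g1, d21, cr_add_right, cr_smul_right, cr_smul_right, cr_pt, cr_pt, t3, t4] at hcr
      linarith
    · change 0 = cr (pt (φ + dl 2)) (s 0 - s (ft 2)) at hcr
      rw [w2, g2, d01, cr_smul_right, cr_pt, t5] at hcr
      linarith
    · exact hself 2 rfl hik
    · change 0 = cr (pt (φ + dl 2)) (s 2 - s (ft 2)) at hcr
      rw [w2, g2, d21, cr_add_right, cr_smul_right, cr_smul_right, cr_pt, cr_pt, t5, t6] at hcr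
      linarith
    · change 0 = cr (pt (φ + dl 3)) (s 0 - s (ft 3)) at hcr
      rw [w3, g3, d02, cr_smul_right, cr_pt, t6] at hcr
      linarith
    · change 0 = cr (pt (φ + dl 3)) (s 1 - s (ft 3)) at hcr
      rw [w3, g3, d12, cr_add_right, cr_smul_right, cr_smul_right, cr_pt, cr_pt, t5, t6] at hcr
      linarith
    · exact hself 3 rfl hik
    · change 0 = cr (pt (φ + dl 4)) (s 0 - s (ft 4)) at hcr
      rw [w4, g4, d02, cr_smul_right, cr_pt, t8] at hcr
      linarith
    · change 0 = cr (pt (φ + dl 4)) (s 1 - s (ft 4)) at hcr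
      rw [w4, g4, d12, cr_add_right, cr_smul_right, cr_smul_right, cr_pt, cr_pt, t7, t8] at hcr
      linarith
    · exact hself 4 rfl hik
  refine ⟨s, a, v, c, ?_, ?_⟩
  · refine ⟨?_, hs1, hs2, hsn, hcpos, fun _ => rfl, ?_, fun i => (hc i).le⟩
    · intro k
      fin_cases k
      · exact pa0
      · exact pa1
    · intro i
      by_contra hlt
      push Not at hlt
      rcases (hc i).fin with h | h
      · change ‖v i‖ = 1 at h
        linarith
      · rcases hT (v i) h.tp hlt with h' | h' | h'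
        · exact hno i 0 h'
        · exact hno i 1 h'
        · exact hno i 2 h'
  · have A1 := E1.ae (by linarith)
    have A2 := E2.ae (by linarith)
    have hms : ∀ k, s k ∈ S := by
      intro k
      fin_cases k
      · exact E1.l.tp.mem
      · exact E1.r.tp.mem
      · exact E2.r.tp.mem
    have g1 : segment ℝ (s 0) (s 1) = segment ℝ s0 (s0 + a0 • ev (φ + 2 * π / 3)) := by
      rw [hs1]; rfl
    have g2 : segment ℝ (s 0) (s 2) = segment ℝ s0 (s0 + a1 • ev (φ - 2 * π / 3)) := by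
      rw [hs2]; rfl
    have hsub1 : segment ℝ (s 0) (s 1) ⊆ tree s v := fun z hz => Or.inl (Or.inl hz)
    have hsub2 : segment ℝ (s 0) (s 2) ⊆ tree s v := fun z hz => Or.inl (Or.inr hz)
    have hsubi : ∀ i, segment ℝ (s (ft i)) (v i) ⊆ tree s v := fun i z hz =>
      Or.inr (mem_iUnion.2 ⟨i, hz⟩)
    -- the vertices
    have hver : ∀ k, ∃ ε > 0, S ∩ ball (s k) ε ⊆ tree s v := by
      intro k
      fin_cases k
      · obtain ⟨ε, hε, h⟩ := vertex_loc h00 (hcpos 0) pa0 pa1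
        refine ⟨ε, hε, h.trans ?_⟩
        refine union_subset (union_subset ?_ ?_) ?_
        · have := hsubi 0
          change segment ℝ s0 (s0 + c 0 • dv φ 0) ⊆ tree s v at this
          rwa [hd0] at this
        · rw [← g1]; exact hsub1
        · rw [← g2]; exact hsub2
      · obtain ⟨ε, hε, h⟩ := vertex_loc h1B (hcpos 2) pa0 (hcpos 1)
        refine ⟨ε, hε, h.trans ?_⟩
        refine union_subset (union_subset ?_ ?_) ?_
        · exact hsubi 2
        · have e : s1 + a0 • ev (φ + π + 2 * π / 3) = s0 := by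
            have e' : φ + π + 2 * π / 3 = φ + 2 * π / 3 + π := by ring
            rw [e', ← neg_ev, E1.fin]; module
          rw [e, segment_symm]; exact hsub1
        · have e : φ + π - 2 * π / 3 = φ + π / 3 := by ring
          rw [e]; exact hsubi 1
      · obtain ⟨ε, hε, h⟩ := vertex_loc h2B (hcpos 3) (hcpos 4) pa1
        refine ⟨ε, hε, h.trans ?_⟩
        refine union_subset (union_subset ?_ ?_) ?_
        · exact hsubi 3
        · have e : φ + π + 2 * π / 3 = φ + 5 * π / 3 := by ring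
          rw [e]; exact hsubi 4
        · have e : s2 + a1 • ev (φ + π - 2 * π / 3) = s0 := by
            have e' : φ + π - 2 * π / 3 = φ - 2 * π / 3 + π := by ring
            rw [e', ← neg_ev, E2.fin]; module
          rw [e, segment_symm]; exact hsub2
    refine ⟨?_, ?_, fun i => (hc i).fin⟩
    · rintro z ((hz | hz) | hz)
      · rw [g1] at hz
        exact A1.sub hcl E1.l.tp.mem hz
      · rw [g2] at hz
        exact A2.sub hcl E2.l.tp.mem hz
      · obtain ⟨i, hi⟩ := mem_iUnion.1 hz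
        exact (hc i).sub hcl (hms _) hi
    · rintro z ((hz | hz) | hz) hzv
      · rw [g1] at hz
        rcases seg_cases pa0 hz with h | h | ⟨q, q0, q1, h⟩
        · rw [h]; exact hver 0
        · rw [h, ← E1.fin]; exact hver 1
        · obtain ⟨ε, hε, h'⟩ := A1.loc q0 q1
          rw [h]
          refine ⟨ε, hε, h'.trans ?_⟩
          rw [← g1]; exact hsub1
      · rw [g2] at hz
        rcases seg_cases pa1 hz with h | h | ⟨q, q0, q1, h⟩
        · rw [h]; exact hver 0
        · rw [h, ← E2.fin]; exact hver 2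
        · obtain ⟨ε, hε, h'⟩ := A2.loc q0 q1
          rw [h]
          refine ⟨ε, hε, h'.trans ?_⟩
          rw [← g2]; exact hsub2
      · obtain ⟨i, hi⟩ := mem_iUnion.1 hz
        rcases seg_cases (hcpos i) hi with h | h | ⟨q, q0, q1, h⟩
        · rw [h]; exact hver _
        · exact absurd h (hzv i)
        · obtain ⟨ε, hε, h'⟩ := (hc i).loc q0 q1
          rw [h]
          exact ⟨ε, hε, h'.trans (hsubi i)⟩

/-- **row TREE** -/
theorem tree_row : NH_TREE := by
  intro A S r hS Y hc hY ρ h1 h2 h5 hρ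
  obtain ⟨hin, s0, s1, s2, e1, e2, t1, t2, hall, hne, m0, m1, m2, E1, E2⟩ :=
    two_edges hS hc hY h1 h2 h5 hρ
  have hT : ∀ z, TP S z → ‖z‖ < 1 / 2 → z = s0 ∨ z = s1 ∨ z = s2 := fun z hz hzn =>
    hall z (hin z hz (hzn.trans h1))
  have n0 := (hY _ m0).1
  have n1 := (hY _ m1).1
  have n2 := (hY _ m2).1
  -- the two directions are different
  have hne' : e1 ≠ e2 := by
    intro h
    rw [← h] at E2
    rcases lt_trichotomy t1 t2 with h' | h' | h'
    · obtain ⟨ε, hL⟩ := E2.ray t1 E1.pos h'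
      rw [← E1.fin] at hL
      exact tp_not_lin E1.r.tp hL
    · exact hne (by rw [E1.fin, E2.fin, h'])
    · obtain ⟨ε, hL⟩ := E1.ray t2 E2.pos h'
      rw [← E2.fin] at hL
      exact tp_not_lin E2.r.tp hL
  obtain ⟨u, ε, hTri, j1, hj1⟩ := E1.l
  obtain ⟨j2, hj2⟩ := E2.l.in hTri
  obtain ⟨α, hα⟩ := exists_ev (E1.l.unit)
  have hj12 : j1 ≠ j2 := by
    rintro rfl
    exact hne' (hj1.symm.trans hj2)
  have hang := hTri.ang j1 j2 hj12
  rw [hj1, hj2, hα] at hang
  rcases at120 E2.l.unit hang with h | h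
  · refine ⟨α - 2 * π / 3, build hS n0 n1 n2 (a0 := t1) (a1 := t2) ?_ ?_ hT⟩
    · have e : α - 2 * π / 3 + 2 * π / 3 = α := by ring
      rw [e, ← hα]; exact E1
    · have e : ev (α - 2 * π / 3 - 2 * π / 3) = e2 := by
        rw [h]
        have e' : α + 2 * π / 3 = α - 2 * π / 3 - 2 * π / 3 + 2 * π := by ring
        rw [e', ev_two_pi]
      rw [e]; exact E2
  · refine ⟨α + 2 * π / 3, build hS n0 n2 n1 (a0 := t2) (a1 := t1) ?_ ?_ ?_⟩
    · have e : ev (α + 2 * π / 3 + 2 * π / 3) = e2 := by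
        rw [h]
        have e' : α + 2 * π / 3 + 2 * π / 3 = α - 2 * π / 3 + 2 * π := by ring
        rw [e', ev_two_pi]
      rw [e]; exact E2
    · have e : α + 2 * π / 3 - 2 * π / 3 = α := by ring
      rw [e, ← hα]; exact E1
    · intro z hz hzn
      rcases hT z hz hzn with h | h | h
      · exact Or.inl h
      · exact Or.inr (Or.inr h)
      · exact Or.inr (Or.inl h)

end NH
end H11ST
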